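import Pool.Statements.S00541
import Pool.Agent.MP_ef83ea_ag.Proj

set_option autoImplicit false
open Pool Pool.MP_ef83ea_ag

namespace Pool.Agent.S00541

/-- For any nonempty finite set of points in complex projective N-space (N at least 1) with ideal I, every m ≥ 1 satisfies alpha(I^(m))/m ≥ (alpha(I^(3)) + N - 1)/(N + 2), i.e. the Waldschmidt constant is at least that bound. -/
theorem result :
    ∀ (N : ℕ), 1 ≤ N → ∀ S : Finset (Fin (N + 1) → ℂ), S.Nonempty → (∀ p ∈ S, p ≠ 0) →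
      ∀ m : ℕ, 1 ≤ m →
        (((sInf {d : ℕ | ∃ f ∈ (⨅ p ∈ S,
              (Ideal.span (Set.range (fun ij : Fin (N + 1) × Fin (N + 1) =>
                (MvPolynomial.X ij.1 * MvPolynomial.C (p ij.2)
                  - MvPolynomial.X ij.2 * MvPolynomial.C (p ij.1) :
                  MvPolynomial (Fin (N + 1)) ℂ)))) ^ 3),
              f ≠ 0 ∧ f.totalDegree = d} : ℕ) : ℝ) + (N : ℝ) - 1) / ((N : ℝ) + 2)
          ≤ ((sInf {d : ℕ | ∃ f ∈ (⨅ p ∈ S,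
              (Ideal.span (Set.range (fun ij : Fin (N + 1) × Fin (N + 1) =>
                (MvPolynomial.X ij.1 * MvPolynomial.C (p ij.2)
                  - MvPolynomial.X ij.2 * MvPolynomial.C (p ij.1) :
                  MvPolynomial (Fin (N + 1)) ℂ)))) ^ m),
              f ≠ 0 ∧ f.totalDegree = d} : ℕ) : ℝ) / (m : ℝ) := by
  intro N hN S hS hS0 m hm
  obtain ⟨M, rfl⟩ : ∃ M, N = M + 1 := ⟨N - 1, by omega⟩
  obtain ⟨p0, hp0⟩ := hS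
  have hne : ∀ i : S, (i : Fin (M + 1 + 1) → ℂ) ≠ 0 := fun i => hS0 i.1 i.2
  change (((sInf {d : ℕ | ∃ f ∈ (⨅ p ∈ S, Pool.Agent.MP_ef83ea_ag.ptIdeal p ^ 3),
      f ≠ 0 ∧ f.totalDegree = d} : ℕ) : ℝ) + ((M + 1 : ℕ) : ℝ) - 1) / (((M + 1 : ℕ) : ℝ) + 2)
    ≤ ((sInf {d : ℕ | ∃ f ∈ (⨅ p ∈ S, Pool.Agent.MP_ef83ea_ag.ptIdeal p ^ m),
      f ≠ 0 ∧ f.totalDegree = d} : ℕ) : ℝ) / (m : ℝ)
  have hnon : {d : ℕ | ∃ f ∈ (⨅ p ∈ S, Pool.Agent.MP_ef83ea_ag.ptIdeal p ^ m),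
      f ≠ 0 ∧ f.totalDegree = d}.Nonempty := by
    obtain ⟨F, hF0, hF⟩ := Pool.Agent.MP_ef83ea_ag.exists_mem_pow
      (fun i : S => (i : Fin (M + 1 + 1) → ℂ)) hne (fun _ => m)
    refine ⟨F.totalDegree, F, ?_, hF0, rfl⟩
    simp only [Submodule.mem_iInf]
    exact fun p hp => hF ⟨p, hp⟩
  obtain ⟨f, hf1, hf2, hf3⟩ := Nat.sInf_mem hnon
  simp only [Submodule.mem_iInf] at hf1
  obtain ⟨F, hF0, hF1, hF2⟩ := Pool.Agent.MP_ef83ea_ag.demailly (⟨p0, hp0⟩ : S)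
    (fun i : S => (i : Fin (M + 1 + 1) → ℂ)) hne (fun _ => 1) (fun _ => le_rfl) 3 m
    (by norm_num) hm f hf2 (fun i => by rw [mul_one]; exact hf1 i.1 i.2)
  have hle : sInf {d : ℕ | ∃ f ∈ (⨅ p ∈ S, Pool.Agent.MP_ef83ea_ag.ptIdeal p ^ 3),
      f ≠ 0 ∧ f.totalDegree = d} ≤ F.totalDegree := by
    apply Nat.sInf_le
    refine ⟨F, ?_, hF0, rfl⟩
    simp only [Submodule.mem_iInf]
    intro p hp
    simpa using hF1 ⟨p, hp⟩
  rw [← hf3]
  generalize sInf {d : ℕ | ∃ f ∈ (⨅ p ∈ S, Pool.Agent.MP_ef83ea_ag.ptIdeal p ^ 3),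
      f ≠ 0 ∧ f.totalDegree = d} = α at hle
  have h1 : m * (α + M) ≤ (3 + M) * f.totalDegree :=
    le_trans (Nat.mul_le_mul_left _ (by omega)) hF2
  have h2 : (m : ℝ) * (α + M) ≤ (3 + M) * f.totalDegree := by exact_mod_cast h1
  have hm' : (0 : ℝ) < m := by exact_mod_cast hm
  rw [div_le_div_iff₀ (by positivity) hm']
  push_cast
  linarith

end Pool.Agent.S00541
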