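import Pool.Statements.S02217
import Pool.Agent.MP_8b9c46_al.Circle

set_option autoImplicit false
open Pool Pool.MP_8b9c46_al

namespace Pool.Agent.S02217

open Pool.Agent.MP_8b9c46_al

/-- For distinct positive k, l, take the groups of circle maps lifting Möbius circle maps through z↦z^k and z↦z^l; both contain the rotations. The natural map from their amalgamated product over the rotation group into circle permutations is injective. -/
theorem result :
    ∀ (k l : ℕ), 0 < k → 0 < l → k ≠ l →
    ∀ (S : ℕ → Set (Equiv.Perm Circle)),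
      (∀ (n : ℕ) (F : Equiv.Perm Circle), F ∈ S n ↔
        (Continuous (⇑F) ∧ ∃ a b : ℂ, Complex.normSq a - Complex.normSq b = 1 ∧
          ∀ z : Circle, ((F z : Circle) : ℂ) ^ n =
            (a * (z : ℂ) ^ n + b) / ((starRingEnd ℂ) b * (z : ℂ) ^ n + (starRingEnd ℂ) a))) →
    ∀ (R : Set (Equiv.Perm Circle)),
      (∀ F : Equiv.Perm Circle, F ∈ R ↔ ∃ c : Circle, ∀ z : Circle, F z = c * z) →
    Function.Injective
      (Monoid.PushoutI.lift
        (φ := fun i : Bool => Subgroup.inclusion
          (Subgroup.closure_mono (Set.subset_union_right : R ⊆ S (cond i k l) ∪ R)))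
        (fun i : Bool => (Subgroup.closure (S (cond i k l) ∪ R)).subtype)
        (Subgroup.closure R).subtype
        (fun i => MonoidHom.ext fun x => rfl)) := by
  intro k l hk hl hne S hS R hR
  classical
  have hclo : ∀ n : ℕ, Subgroup.closure (S n ∪ R) ≤ liftGroup n := by
    intro n
    rw [Subgroup.closure_le]
    rintro F (hF | hF)
    · obtain ⟨h1, a, b, hab, h2⟩ := (hS n F).mp hF
      refine ⟨h1, a, b, hab, fun z => ?_⟩
      unfold RelP
      simp only [Algebra.algebraMap_self, RingHom.id_apply]
      rw [h2 z, div_mul_cancel₀ _ (circle_den_ne_zero hab n z)]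
    · obtain ⟨c, hc⟩ := (hR F).mp hF
      exact rot_mem_liftGroup n F c hc
  have hrot : ∀ F ∈ Subgroup.closure R, ∃ c : Circle, ∀ z : Circle, F z = c * z := by
    intro F hF
    induction hF using Subgroup.closure_induction with
    | mem x hx => exact (hR x).mp hx
    | one => exact ⟨1, fun z => by simp⟩
    | mul x y _ _ hx hy =>
      obtain ⟨c, hc⟩ := hx
      obtain ⟨d, hd⟩ := hy
      exact ⟨c * d, fun z => by simp [hc, hd, mul_assoc]⟩
    | inv x _ hx =>
      obtain ⟨c, hc⟩ := hx
      refine ⟨c⁻¹, fun z => ?_⟩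
      have := hc (x⁻¹ z)
      simp only [Equiv.Perm.coe_inv, Equiv.apply_symm_apply] at this ⊢
      rw [eq_inv_mul_iff_mul_eq, ← this]
  rw [injective_iff_map_eq_one]
  intro g hg
  obtain ⟨d⟩ := Monoid.PushoutI.NormalWord.transversal_nonempty
    (fun i : Bool => Subgroup.inclusion
      (Subgroup.closure_mono (Set.subset_union_right : R ⊆ S (cond i k l) ∪ R)))
    (fun i => Subgroup.inclusion_injective _)
  obtain ⟨w, rfl⟩ := (Monoid.PushoutI.NormalWord.equiv (d := d)).symm.surjective g
  change Monoid.PushoutI.lift _ _ _ w.prod = 1 at hg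
  change w.prod = 1
  set L : List (Bool × Equiv.Perm Circle) := w.toList.map (fun p => (p.1, (p.2 : Equiv.Perm Circle)))
    with hL
  have hprod : (w.head : Equiv.Perm Circle) * (L.map Prod.snd).prod = 1 := by
    rw [← hg]
    simp only [Monoid.PushoutI.NormalWord.prod, map_mul, Monoid.PushoutI.lift_base,
      Monoid.CoprodI.Word.prod, map_list_prod, List.map_map, hL]
    congr 2
  by_cases hnil : w.toList = []
  · have h1 : w.head = 1 := by
      apply Subtype.ext
      simpa [hL, hnil] using hprod
    simp [Monoid.PushoutI.NormalWord.prod, Monoid.CoprodI.Word.prod, hnil, h1]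
  · exfalso
    obtain ⟨c, hc⟩ := hrot _ (w.head⁻¹).2
    refine word_ne_rot k l hk hl hne L (by simpa [hL] using hnil) ?_ ?_ c ?_
    · intro p hp
      obtain ⟨q, hq, rfl⟩ := List.mem_map.mp hp
      refine ⟨hclo _ q.2.2, fun hq' => ?_⟩
      have h1 : (q.2 : Equiv.Perm Circle) ∈ Subgroup.closure R :=
        Subgroup.subset_closure ((hR _).mpr hq')
      have h2 := w.normalized q.1 q.2 hq
      have h3 := w.ne_one q hq
      apply h3
      have h4 := (d.compl q.1).1 (a₁ := (⟨q.2, ⟨⟨_, h1⟩, rfl⟩⟩, ⟨1, d.one_mem q.1⟩))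
        (a₂ := (⟨1, one_mem _⟩, ⟨q.2, h2⟩)) (by simp)
      have h5 := congrArg (fun x => (x.1 : Subgroup.closure (S (cond q.1 k l) ∪ R))) h4
      exact h5
    · rw [hL, List.isChain_map]
      exact w.chain_ne
    · intro z
      rw [← hc z, eq_inv_of_mul_eq_one_right hprod]
      rfl

end Pool.Agent.S02217
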