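import Pool.Statements.S03057
import Pool.Agent.MP_cb5d7d_al.Final

set_option autoImplicit false
open Pool Pool.MP_cb5d7d_al

namespace Pool.Agent.S03057

/-- There is a countable group whose space of circular orders (left-invariant nondegenerate ±1 cocycles, with the product topology) has a nonempty set of accumulation points that is not homeomorphic to the Cantor space. -/
theorem result : ∃ (G : Type) (_ : Group G) (_ : Countable G),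
    (derivedSet {c : G → G → G → ℤ |
        (∀ a b d, c a b d = 0 ∨ c a b d = 1 ∨ c a b d = -1) ∧
        (∀ a b d, c a b d = 0 ↔ (a = b ∨ b = d ∨ a = d)) ∧
        (∀ g₁ g₂ g₃ g₄, c g₂ g₃ g₄ - c g₁ g₃ g₄ + c g₁ g₂ g₄ - c g₁ g₂ g₃ = 0) ∧
        (∀ g a b d, c (g * a) (g * b) (g * d) = c a b d)}).Nonempty ∧
    ¬ Nonempty ((derivedSet {c : G → G → G → ℤ |
        (∀ a b d, c a b d = 0 ∨ c a b d = 1 ∨ c a b d = -1) ∧
        (∀ a b d, c a b d = 0 ↔ (a = b ∨ b = d ∨ a = d)) ∧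
        (∀ g₁ g₂ g₃ g₄, c g₂ g₃ g₄ - c g₁ g₃ g₄ + c g₁ g₂ g₄ - c g₁ g₂ g₃ = 0) ∧
        (∀ g a b d, c (g * a) (g * b) (g * d) = c a b d)}) ≃ₜ (ℕ → Bool)) := by
  refine ⟨Pool.Agent.MP_cb5d7d_al.Gam, inferInstance, inferInstance, ?_⟩
  have h := Pool.Agent.MP_cb5d7d_al.final
  have e : {c : Pool.Agent.MP_cb5d7d_al.Gam → Pool.Agent.MP_cb5d7d_al.Gam →
      Pool.Agent.MP_cb5d7d_al.Gam → ℤ | Pool.Agent.MP_cb5d7d_al.IsCO c} = {c |
        (∀ a b d, c a b d = 0 ∨ c a b d = 1 ∨ c a b d = -1) ∧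
        (∀ a b d, c a b d = 0 ↔ (a = b ∨ b = d ∨ a = d)) ∧
        (∀ g₁ g₂ g₃ g₄, c g₂ g₃ g₄ - c g₁ g₃ g₄ + c g₁ g₂ g₄ - c g₁ g₂ g₃ = 0) ∧
        (∀ g a b d, c (g * a) (g * b) (g * d) = c a b d)} := by
    ext c
    exact ⟨fun h => ⟨h.val, h.zero, h.coc, h.inv⟩, fun h => ⟨h.1, h.2.1, h.2.2.1, h.2.2.2⟩⟩
  rw [e] at h
  exact h

end Pool.Agent.S03057
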