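import Pool.Statements.S03191
import Pool.Agent.MP_d5a4a4_al.Mg.Unfold

-- Template for statement S03191, which your task lets you prove directly.
-- Copy to Pool/Agent/S03191.lean and replace the sorry. The statement below is byte-identical to the frozen
-- statement Pool.MP_d5a4a4_al.PoolFrozen.S03191 (Pool/Statements/S03191.lean; the theorem Pool.MP_d5a4a4_al.main);
-- the grader kernel-checks Pool.Agent.S03191.result against that frozen type. Keep the theorem IN THIS FILE
-- (a `result` declared elsewhere and merely imported here is not credited); helpers may live anywhere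
-- under Pool/Agent/ except Pool/Agent/Results/<P>/, where every file is a hand-in, and Pool/Agent/OnPar/, which the grade drops.

set_option autoImplicit false
open Pool Pool.MP_d5a4a4_al

namespace Pool.Agent.S03191

/-- For every finite-rank Coxeter group and every Coxeter element w, the interval group on [1,w] (reflection-length order, relations [a][a⁻¹c]=[c] for a≤c≤w) is isomorphic to the Artin group of the same Coxeter matrix. -/
theorem result :
    ∀ (n : ℕ) (M : CoxeterMatrix (Fin n)) (σ : Equiv.Perm (Fin n)) (w : M.Group)
      (leT : M.Group → M.Group → Prop),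
      w = ((List.finRange n).map (fun k => M.simple (σ k))).prod →
      (∀ a c : M.Group, leT a c ↔
        ∃ l₁ l₂ : List M.Group,
          (∀ t ∈ l₁ ++ l₂, M.toCoxeterSystem.IsReflection t) ∧
          l₁.prod = a ∧ (l₁ ++ l₂).prod = c ∧
          ∀ l : List M.Group, (∀ t ∈ l, M.toCoxeterSystem.IsReflection t) →
            l.prod = c → (l₁ ++ l₂).length ≤ l.length) →
      Nonempty
        (PresentedGroup
            (Set.range (fun p : Fin n × Fin n =>
              ((List.range (M p.1 p.2)).map
                  (fun k => FreeGroup.of (if Even k then p.1 else p.2))).prod *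
              (((List.range (M p.1 p.2)).map
                  (fun k => FreeGroup.of (if Even k then p.2 else p.1))).prod)⁻¹))
          ≃*
         PresentedGroup
            ({r : FreeGroup M.Group | ∃ a c : M.Group, leT a c ∧ leT c w ∧
                r = FreeGroup.of a * FreeGroup.of (a⁻¹ * c) * (FreeGroup.of c)⁻¹} ∪
             {r : FreeGroup M.Group | ∃ u : M.Group, ¬ leT u w ∧ r = FreeGroup.of u})) := by
  intro n M σ w leT hw hle
  have hl : ((List.finRange n).map σ).Nodup := (List.nodup_finRange n).map σ.injective
  have hall : ∀ i, i ∈ (List.finRange n).map σ := fun i =>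
    List.mem_map.mpr ⟨σ.symm i, List.mem_finRange _, σ.apply_symm_apply i⟩
  obtain ⟨E, hE⟩ := Pool.Agent.MP_d5a4a4_al.exists_euler M hl hall
  have e : w = M.toCoxeterSystem.wordProd ((List.finRange n).map σ) := by
    rw [hw, CoxeterSystem.wordProd, List.map_map]
    rfl
  rw [e]
  exact Pool.Agent.MP_d5a4a4_al.exists_iso hE (Pool.Agent.MP_d5a4a4_al.keyBound hE) leT hle

end Pool.Agent.S03191
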