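import Pool.Statements.S03423
import Pool.Agent.MP_e97151_al.Mg.Main

-- Template for statement S03423, which your task lets you prove directly.
-- Copy to Pool/Agent/S03423.lean and replace the sorry. The statement below is byte-identical to the frozen
-- statement Pool.MP_e97151_al.PoolFrozen.S03423 (Pool/Statements/S03423.lean; the theorem Pool.MP_e97151_al.main);
-- the grader kernel-checks Pool.Agent.S03423.result against that frozen type. Keep the theorem IN THIS FILE
-- (a `result` declared elsewhere and merely imported here is not credited); helpers may live anywhere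
-- under Pool/Agent/ except Pool/Agent/Results/<P>/, where every file is a hand-in, and Pool/Agent/OnPar/, which the grade drops.

set_option autoImplicit false
open Pool Pool.MP_e97151_al

namespace Pool.Agent.S03423

/-- For f.g. residually finite groups G ≤ H via injective u such that u induces bijections Hom(H,Q)→Hom(G,Q) for all finite Q (profinite iso), if G has at least two ends then so does H. -/
theorem result :
    ∀ (G H : Type) [Group G] [Group H], Group.FG G → Group.FG H →
      (∀ g : G, g ≠ 1 → ∃ N : Subgroup G, N.Normal ∧ N.FiniteIndex ∧ g ∉ N) →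
      (∀ h : H, h ≠ 1 → ∃ N : Subgroup H, N.Normal ∧ N.FiniteIndex ∧ h ∉ N) →
      ∀ u : G →* H, Function.Injective u →
      (∀ (Q : Type) [Group Q] [Finite Q],
          Function.Bijective (fun φ : H →* Q => φ.comp u)) →
      (∃ S : Finset G, Subgroup.closure (S : Set G) = ⊤ ∧
          Nontrivial ((SimpleGraph.componentComplFunctor
            (SimpleGraph.fromRel (fun x y : G => ∃ s ∈ S, y = x * s))).sections)) →
      (∃ T : Finset H, Subgroup.closure (T : Set H) = ⊤ ∧
          Nontrivial ((SimpleGraph.componentComplFunctor
            (SimpleGraph.fromRel (fun x y : H => ∃ t ∈ T, y = x * t))).sections)) := by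
  intro G H _ _ hG hH hrG hrH u hinj hu ⟨S, hS, hne⟩
  obtain ⟨T, hT⟩ := hH.out
  exact ⟨T, hT, Pool.Agent.MP_e97151_al.ends_of_ai T hT
    (Pool.Agent.MP_e97151_al.ai_up hG hH hrG hrH u hinj hu
      (Pool.Agent.MP_e97151_al.ai_of_ends S hS hne))⟩

end Pool.Agent.S03423
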