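import Pool.Statements.S03521
import Pool.Agent.MP_f21dda_al.Mg.H92_Main

set_option autoImplicit false
open Pool Pool.MP_f21dda_al

namespace Pool.Agent.S03521

open Pool.Agent.MP_f21dda_al.H92

/-- In every group with a linear order invariant under right multiplication, the elements g for which some fixed n gives [x,g,…,g] = 1 (n copies of g, [a,b]=a⁻¹b⁻¹ab) for all x form a subgroup. -/
theorem result :
    ∀ (G : Type) [Group G] [LinearOrder G] [MulRightMono G],
      ∃ H : Subgroup G,
        (H : Set G) =
          {g : G | ∃ n : ℕ, ∀ x : G, (fun y : G => y⁻¹ * g⁻¹ * y * g)^[n] x = 1} := by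
  intro G _ _ _
  have hP : ∀ {n : ℕ} {a b : G}, IsEng n a → IsEng n b → ∀ {f : G},
      f ∈ Subgroup.closure {a, b} → ∃ m, IsEng m f := by
    intro n a b ha hb f hf
    refine isEng_of_mem_closure (fun a => 1 ≤ a) (fun a b ha hb => ?_) (fun a => ?_)
      (fun a h h' => ?_) ha hb hf
    · have := mul_le_mul_left ha b
      rw [one_mul] at this
      exact hb.trans this
    · rcases le_total 1 a with h | h
      · exact Or.inl h
      · have := mul_le_mul_left h a⁻¹
        rw [mul_inv_cancel, one_mul] at this
        exact Or.inr this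
    · have := mul_le_mul_left h' a
      rw [inv_mul_cancel, one_mul] at this
      exact le_antisymm this h
  refine ⟨{ carrier := {g | ∃ n, IsEng n g⁻¹}
            one_mem' := ⟨1, fun x => by simp [eng]⟩
            mul_mem' := ?_
            inv_mem' := ?_ }, ?_⟩
  · rintro a b ⟨n, ha⟩ ⟨m, hb⟩
    refine hP (ha.mono (le_max_left n m)) (hb.mono (le_max_right n m)) ?_
    rw [mul_inv_rev]
    exact mul_mem (Subgroup.subset_closure (by simp)) (Subgroup.subset_closure (by simp))
  · rintro a ⟨n, ha⟩
    exact hP ha ha (inv_mem (Subgroup.subset_closure (by simp)))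
  · ext g
    have : (fun y : G => y⁻¹ * g⁻¹ * y * g) = eng g⁻¹ := by
      funext y
      simp [eng, mul_assoc]
    rw [Set.mem_ofPred_eq, this]
    rfl

end Pool.Agent.S03521
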