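import Pool.Statements.S03733
import Pool.Agent.MP_0811ac_an.Mg.Main

set_option autoImplicit false
open MeasureTheory AddCircle
open Pool Pool.MP_0811ac_an

namespace Pool.Agent.S03733

open Pool.Agent.MP_0811ac_an

/-- For every bounded symbol φ on the circle whose Toeplitz operator f ↦ P₊(φf) maps H^∞ into H^∞, the spectral radius of that operator on H^∞ equals the essential sup norm of φ. -/
theorem result :
    ∀ φ : UnitAddCircle → ℂ,
      AEStronglyMeasurable φ haarAddCircle →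
      eLpNorm φ ⊤ haarAddCircle < ⊤ →
      (∀ f : UnitAddCircle → ℂ,
        (AEStronglyMeasurable f haarAddCircle ∧ eLpNorm f ⊤ haarAddCircle < ⊤ ∧
          ∀ n : ℤ, n < 0 → fourierCoeff f n = 0) →
        ∃ g : UnitAddCircle → ℂ,
          (AEStronglyMeasurable g haarAddCircle ∧ eLpNorm g ⊤ haarAddCircle < ⊤ ∧
            ∀ n : ℤ, n < 0 → fourierCoeff g n = 0) ∧
          ∀ n : ℤ, 0 ≤ n → fourierCoeff g n = fourierCoeff (fun t => φ t * f t) n) →
      IsLUB
        {r : ℝ | ∃ c : ℂ, r = ‖c‖ ∧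
          ¬ ((∀ f : UnitAddCircle → ℂ,
                (AEStronglyMeasurable f haarAddCircle ∧ eLpNorm f ⊤ haarAddCircle < ⊤ ∧
                  ∀ n : ℤ, n < 0 → fourierCoeff f n = 0) →
                (∀ n : ℤ, 0 ≤ n → fourierCoeff (fun t => (φ t - c) * f t) n = 0) →
                f =ᵐ[haarAddCircle] 0) ∧
             (∀ g : UnitAddCircle → ℂ,
                (AEStronglyMeasurable g haarAddCircle ∧ eLpNorm g ⊤ haarAddCircle < ⊤ ∧
                  ∀ n : ℤ, n < 0 → fourierCoeff g n = 0) →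
                ∃ f : UnitAddCircle → ℂ,
                  (AEStronglyMeasurable f haarAddCircle ∧ eLpNorm f ⊤ haarAddCircle < ⊤ ∧
                    ∀ n : ℤ, n < 0 → fourierCoeff f n = 0) ∧
                  ∀ n : ℤ, 0 ≤ n →
                    fourierCoeff (fun t => (φ t - c) * f t) n = fourierCoeff g n))}
        (eLpNorm φ ⊤ haarAddCircle).toReal := by
  intro φ hφm hφb hmaps
  have hφ : MemLp φ ⊤ mu := ⟨hφm, hφb⟩
  have hH : ∀ f : Tc → ℂ, (AEStronglyMeasurable f haarAddCircle ∧ eLpNorm f ⊤ haarAddCircle < ⊤ ∧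
      ∀ n : ℤ, n < 0 → fourierCoeff f n = 0) ↔ H f := fun f =>
    ⟨fun h => ⟨⟨h.1, h.2.1⟩, h.2.2⟩, fun h => ⟨h.1.1, h.1.2, h.2⟩⟩
  simp only [hH] at hmaps ⊢
  have hA : Acts φ := acts_of_maps hφ hmaps
  set ρ := (eLpNorm φ ⊤ haarAddCircle).toReal with hρ
  have hρ0 : 0 ≤ ρ := ENNReal.toReal_nonneg
  have hb : ∀ᵐ t ∂mu, ‖φ t‖ ≤ ρ := by
    have h1 := ae_le_eLpNormEssSup (f := φ) (μ := mu)
    filter_upwards [h1] with t ht
    have h2 : eLpNormEssSup φ mu ≠ ⊤ := by
      have := hφb.ne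
      rwa [eLpNorm_exponent_top] at this
    rw [hρ, eLpNorm_exponent_top]
    have := ENNReal.toReal_mono h2 ht
    simpa using this
  constructor
  · rintro r ⟨c, rfl, hc⟩
    by_contra hlt
    push Not at hlt
    apply hc
    have hcpos : 0 < ‖c‖ := hρ0.trans_lt hlt
    have hc0 : c ≠ 0 := norm_pos_iff.1 hcpos
    have hf : Acts fun t => c⁻¹ * φ t :=
      hA.comp hb (R := ρ + 1) (by linarith) (Φ := fun z => c⁻¹ * z) (by fun_prop)
    have hfb : ∀ᵐ t ∂mu, ‖c⁻¹ * φ t‖ ≤ ρ / ‖c‖ := by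
      filter_upwards [hb] with t ht
      rw [norm_mul, norm_inv, div_eq_inv_mul]
      gcongr
    have hlt1 : ρ / ‖c‖ < 1 := (div_lt_one hcpos).2 hlt
    have hrw : ∀ g : Tc → ℂ, (fun t => (φ t - c) * g t) =
        fun t => (-c) * ((1 - c⁻¹ * φ t) * g t) := by
      intro g; ext t; field_simp; ring
    constructor
    · intro g hg h0
      refine inj_of_lt hf.1 hfb hlt1 hg fun n hn => ?_
      have := h0 n hn
      rw [hrw, cf_const_mul] at this
      exact (mul_eq_zero.1 this).resolve_left (neg_ne_zero.2 hc0)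
    · intro g hg
      obtain ⟨y, hy, hy1⟩ := hf.surj hfb hlt1 (hg.const_mul (-c)⁻¹)
      refine ⟨y, hy, fun n hn => ?_⟩
      rw [hrw, cf_const_mul, hy1 n hn, cf_const_mul, ← mul_assoc,
        mul_inv_cancel₀ (neg_ne_zero.2 hc0), one_mul]
  · intro b hbub
    by_contra hlt
    push Not at hlt
    obtain ⟨b', h1, h2⟩ := exists_between hlt
    let K : Set ℂ := Metric.closedBall 0 ρ ∩ {c | b' ≤ ‖c‖}
    have hK : IsCompact K :=
      (isCompact_closedBall 0 ρ).inter_right (isClosed_le continuous_const continuous_norm)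
    have hnull : ∀ᵐ t ∂mu, φ t ∉ K := by
      refine hK.induction_on (p := fun S => ∀ᵐ t ∂mu, φ t ∉ S) ?_ ?_ ?_ ?_
      · simp
      · intro S T hST hT
        filter_upwards [hT] with t ht hS using ht (hST hS)
      · intro S T hS hT
        filter_upwards [hS, hT] with t h3 h4 h5 using h5.elim h3 h4
      · intro c hc
        have hbij : ¬ ¬ _ := fun h => absurd (hbub ⟨c, rfl, h⟩) (not_le.2 (h1.trans_le hc.2))
        obtain ⟨δ, hδ, hδ1⟩ := lower_of_surj (u := fun t => φ t - c)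
          (hφ.sub (memLp_top_const c)) (not_not.1 hbij).2
        refine ⟨Metric.ball c δ, mem_nhdsWithin_of_mem_nhds (Metric.ball_mem_nhds c hδ), ?_⟩
        filter_upwards [hδ1] with t ht
        rw [Metric.mem_ball, dist_eq_norm]
        exact not_lt.2 ht
    have h3 : ∀ᵐ t ∂mu, ‖φ t‖ ≤ b' := by
      filter_upwards [hnull, hb] with t h4 h5
      by_contra h6
      exact h4 ⟨mem_closedBall_zero_iff.2 h5, (not_le.1 h6).le⟩
    have h4 := eLpNormEssSup_le_of_ae_bound h3
    have h5 : ρ ≤ b' := by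
      rw [hρ, eLpNorm_exponent_top]
      exact ENNReal.toReal_le_of_le_ofReal (bound_nonneg h3) h4
    linarith

end Pool.Agent.S03733
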