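import Pool.Statements.S03752
import Pool.Agent.MP_097dd0_an.Mg.Main

-- Template for statement S03752, which your task lets you prove directly.
-- Copy to Pool/Agent/S03752.lean and replace the sorry. The statement below is byte-identical to the frozen
-- statement Pool.MP_097dd0_an.PoolFrozen.S03752 (Pool/Statements/S03752.lean; the theorem Pool.MP_097dd0_an.not_main);
-- the grader kernel-checks Pool.Agent.S03752.result against that frozen type. Keep the theorem IN THIS FILE
-- (a `result` declared elsewhere and merely imported here is not credited); helpers may live anywhere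
-- under Pool/Agent/ except Pool/Agent/Results/<P>/, where every file is a hand-in, and Pool/Agent/OnPar/, which the grade drops.

set_option autoImplicit false
open Pool Pool.MP_097dd0_an

namespace Pool.Agent.S03752

/-- The negation of the preceding statement: There is a family of closed balls of positive radius in the Hilbert space of square-summable real families indexed by ℝ that covers the whole space, with each point lying in only finitely many balls. -/
theorem result :
    ¬ (∃ S : Set (lp (fun _ : ℝ => ℝ) (2 : ENNReal) × ℝ),
      (∀ p ∈ S, 0 < p.2) ∧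
      (∀ x : lp (fun _ : ℝ => ℝ) (2 : ENNReal), ∃ p ∈ S, x ∈ Metric.closedBall p.1 p.2) ∧
      (∀ x : lp (fun _ : ℝ => ℝ) (2 : ENNReal),
        {p ∈ S | x ∈ Metric.closedBall p.1 p.2}.Finite)) := by
  rintro ⟨S, hpos, hcov, hfin⟩
  refine Pool.Agent.MP_097dd0_an.no_point_finite_cover
    Pool.Agent.MP_097dd0_an.not_finiteDimensional_lp (I := S)
    (fun p => p.1.1) (fun p => p.1.2) (fun p => hpos p.1 p.2) (fun y => ?_) (fun y => ?_)
  · refine ((hfin y).preimage (f := ((↑) : S → _)) Subtype.val_injective.injOn).subset ?_
    intro p hp
    exact ⟨p.2, hp⟩
  · obtain ⟨p, hp, hy⟩ := hcov y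
    exact ⟨⟨p, hp⟩, hy⟩

end Pool.Agent.S03752
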