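import Pool.Statements.S03868
import Pool.Agent.MP_12f186_an.Mg.Main

-- Template for statement S03868, which your task lets you prove directly.
-- Copy to Pool/Agent/S03868.lean and replace the sorry. The statement below is byte-identical to the frozen
-- statement Pool.MP_12f186_an.PoolFrozen.S03868 (Pool/Statements/S03868.lean; the theorem Pool.MP_12f186_an.not_main);
-- the grader kernel-checks Pool.Agent.S03868.result against that frozen type. Keep the theorem IN THIS FILE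
-- (a `result` declared elsewhere and merely imported here is not credited); helpers may live anywhere
-- under Pool/Agent/ except Pool/Agent/Results/<P>/, where every file is a hand-in, and Pool/Agent/OnPar/, which the grade drops.

set_option autoImplicit false
open MeasureTheory
open Pool Pool.MP_12f186_an

namespace Pool.Agent.S03868

/-- The negation of the preceding statement: There is a Borel shift-equivariant choice of a directed Hamiltonian path on each free 0-1 configuration on Z^2 such that, for ergodic invariant measures on the free part, Z^2-shift conjugacy holds iff conjugacy of the induced step-along-the-path map holds. -/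
theorem result :
    ¬ (∃ Φ : ((ℤ × ℤ) → Bool) → (ℤ × ℤ) → (ℤ × ℤ),
      Measurable Φ ∧
      (∀ x : (ℤ × ℤ) → Bool,
        (∀ v : ℤ × ℤ, (fun w => x (w + v)) = x → v = 0) →
          (∀ v : ℤ × ℤ, Φ (fun w => x (w + v)) = fun w => Φ x (w + v) - v) ∧
          Function.Bijective (Φ x) ∧
          (∀ w : ℤ × ℤ, Φ x w - w ∈ ({(1, 0), (-1, 0), (0, 1), (0, -1)} : Set (ℤ × ℤ))) ∧
          (∀ v w : ℤ × ℤ, ∃ n : ℕ, (Φ x)^[n] v = w ∨ (Φ x)^[n] w = v)) ∧
      ∀ μ ν : Measure ((ℤ × ℤ) → Bool),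
        IsProbabilityMeasure μ → IsProbabilityMeasure ν →
        μ {x | ∃ v : ℤ × ℤ, v ≠ 0 ∧ (fun w => x (w + v)) = x} = 0 →
        ν {x | ∃ v : ℤ × ℤ, v ≠ 0 ∧ (fun w => x (w + v)) = x} = 0 →
        (∀ v : ℤ × ℤ, μ.map (fun (x : (ℤ × ℤ) → Bool) (w : ℤ × ℤ) => x (w + v)) = μ) →
        (∀ v : ℤ × ℤ, ν.map (fun (x : (ℤ × ℤ) → Bool) (w : ℤ × ℤ) => x (w + v)) = ν) →
        (∀ s : Set ((ℤ × ℤ) → Bool), MeasurableSet s →
          (∀ v : ℤ × ℤ, (fun (x : (ℤ × ℤ) → Bool) (w : ℤ × ℤ) => x (w + v)) ⁻¹' s = s) →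
          μ s = 0 ∨ μ s = 1) →
        (∀ s : Set ((ℤ × ℤ) → Bool), MeasurableSet s →
          (∀ v : ℤ × ℤ, (fun (x : (ℤ × ℤ) → Bool) (w : ℤ × ℤ) => x (w + v)) ⁻¹' s = s) →
          ν s = 0 ∨ ν s = 1) →
        ((∃ f g : ((ℤ × ℤ) → Bool) → ((ℤ × ℤ) → Bool),
            Measurable f ∧ Measurable g ∧ μ.map f = ν ∧ ν.map g = μ ∧
            (∀ᵐ x ∂μ, g (f x) = x) ∧ (∀ᵐ y ∂ν, f (g y) = y) ∧
            ∀ v : ℤ × ℤ, ∀ᵐ x ∂μ, f (fun w => x (w + v)) = fun w => f x (w + v)) ↔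
         (∃ f g : ((ℤ × ℤ) → Bool) → ((ℤ × ℤ) → Bool),
            Measurable f ∧ Measurable g ∧ μ.map f = ν ∧ ν.map g = μ ∧
            (∀ᵐ x ∂μ, g (f x) = x) ∧ (∀ᵐ y ∂ν, f (g y) = y) ∧
            ∀ᵐ x ∂μ, f (fun w => x (w + Φ x 0)) = fun w => f x (w + Φ (f x) 0)))) := by
  rintro ⟨Φ, hm, hp, h⟩
  refine Pool.Agent.MP_12f186_an.not_forward (Φ := Φ) ⟨hm, hp⟩ ?_
  intro μ ν h1 h2 h3 h4 h5 h6 h7 h8 h9
  exact (h μ ν h1 h2 h3 h4 h5 h6 h7 h8).1 h9

end Pool.Agent.S03868
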