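import Pool.Statements.S04138
import Pool.Agent.MP_28f04c_an.Mg.Main

-- Template for statement S04138, which your task lets you prove directly.
-- Copy to Pool/Agent/S04138.lean and replace the sorry. The statement below is byte-identical to the frozen
-- statement Pool.MP_28f04c_an.PoolFrozen.S04138 (Pool/Statements/S04138.lean; the theorem Pool.MP_28f04c_an.not_main);
-- the grader kernel-checks Pool.Agent.S04138.result against that frozen type. Keep the theorem IN THIS FILE
-- (a `result` declared elsewhere and merely imported here is not credited); helpers may live anywhere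
-- under Pool/Agent/ except Pool/Agent/Results/<P>/, where every file is a hand-in, and Pool/Agent/OnPar/, which the grade drops.

set_option autoImplicit false
open Filter Topology
open Pool Pool.MP_28f04c_an

namespace Pool.Agent.S04138

/-- The negation of the preceding statement: There is a complex polynomial of degree at least 2 whose critical orbits stay away from its Julia set (hyperbolic). Its Julia set is connected and has only finitely many quasisymmetric self-homeomorphisms. -/
theorem result :
    ¬ (∃ f : Polynomial ℂ, ∃ J : Set ℂ,
      2 ≤ f.natDegree ∧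
      J = frontier {z : ℂ | Bornology.IsBounded
            (Set.range (fun n : ℕ => (fun w : ℂ => f.eval w)^[n] z))} ∧
      Disjoint (closure (⋃ c ∈ {c : ℂ | f.derivative.eval c = 0},
            Set.range (fun n : ℕ => (fun w : ℂ => f.eval w)^[n] c))) J ∧
      IsConnected J ∧
      Set.Finite {h : J ≃ₜ J | ∃ η : ℝ → ℝ, η 0 = 0 ∧
          StrictMonoOn η (Set.Ici 0) ∧ ContinuousOn η (Set.Ici 0) ∧
          Tendsto η atTop atTop ∧
          ∀ a x y : J, y ≠ a →
            dist (h x) (h a) ≤ η (dist x a / dist y a) * dist (h y) (h a)}) := by
  rintro ⟨f, J, hd, hJ, hPC, hconn, hfin⟩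
  have hJ' : J = frontier (Pool.Agent.MP_28f04c_an.KK f) := hJ
  obtain ⟨M, hM⟩ := Pool.Agent.MP_28f04c_an.exists_model hd (hJ' ▸ hPC) (hJ' ▸ hconn)
  exact M.infinite_qs J (hJ'.trans hM) hfin

end Pool.Agent.S04138
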