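import Pool.Statements.S05217
import Pool.Agent.MP_81537f_an.Mg.Main

-- Template for statement S05217, which your task lets you prove directly.
-- Copy to Pool/Agent/S05217.lean and replace the sorry. The statement below is byte-identical to the frozen
-- statement Pool.MP_81537f_an.PoolFrozen.S05217 (Pool/Statements/S05217.lean; the theorem Pool.MP_81537f_an.main);
-- the grader kernel-checks Pool.Agent.S05217.result against that frozen type. Keep the theorem IN THIS FILE
-- (a `result` declared elsewhere and merely imported here is not credited); helpers may live anywhere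
-- under Pool/Agent/ except Pool/Agent/Results/<P>/, where every file is a hand-in, and Pool/Agent/OnPar/, which the grade drops.

set_option autoImplicit false
open Pool Pool.MP_81537f_an

namespace Pool.Agent.S05217

/-- For every p ≥ 1, if f with f(0)=1 lies in V_{2p} but not V_{2p−2}, then f's Taylor series never has 2p+2 consecutive zero coefficients. V_{2p} means: a real entire function of genus ≤ 2p+1 with only real zeros, times exp(−a z^{2p+2}) with a ≥ 0. -/
theorem result :
    ∀ p : ℕ, 1 ≤ p → ∀ f : ℂ → ℂ,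
      (∃ (c : ℂ) (m : ℕ) (a : ℝ) (β : Polynomial ℝ) (y : ℕ → ℝ),
        0 ≤ a ∧ β.natDegree ≤ 2 * p + 1 ∧ Summable (fun n => |y n| ^ (2 * p + 2)) ∧
        ∀ z : ℂ, f z = c * z ^ m *
          Complex.exp (-(a : ℂ) * z ^ (2 * p + 2) + Polynomial.aeval z β) *
          ∏' n, ((1 - (y n : ℂ) * z) *
            Complex.exp (∑ j ∈ Finset.Icc 1 (2 * p + 1), ((y n : ℂ) * z) ^ j / (j : ℂ)))) →
      (¬ ∃ (c : ℂ) (m : ℕ) (a : ℝ) (β : Polynomial ℝ) (y : ℕ → ℝ),
        0 ≤ a ∧ β.natDegree ≤ 2 * p - 1 ∧ Summable (fun n => |y n| ^ (2 * p)) ∧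
        ∀ z : ℂ, f z = c * z ^ m *
          Complex.exp (-(a : ℂ) * z ^ (2 * p) + Polynomial.aeval z β) *
          ∏' n, ((1 - (y n : ℂ) * z) *
            Complex.exp (∑ j ∈ Finset.Icc 1 (2 * p - 1), ((y n : ℂ) * z) ^ j / (j : ℂ)))) →
      f 0 = 1 →
      ¬ ∃ n : ℕ, ∀ j : ℕ, j < 2 * p + 2 → iteratedDeriv (n + j) f 0 = 0 := by
  rintro p hp f ⟨c, m, a, β, y, ha, hβ, hy, hf⟩ hnot h0 ⟨n, hn⟩
  have hf' : ∀ z : ℂ, f z = c * z ^ m *
      Complex.exp (-(a : ℂ) * z ^ (2 * p + 2) + Polynomial.aeval z β) *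
      ∏' n, Pool.Agent.MP_81537f_an.wf (2 * p + 1) (y n * z) := hf
  have hβc : Polynomial.aeval (0 : ℂ) β = ((β.eval 0 : ℝ) : ℂ) := by
    have := Polynomial.aeval_algebraMap_apply_eq_algebraMap_eval (A := ℂ) (0 : ℝ) β
    rwa [map_zero] at this
  have h1 := hf' 0
  rw [h0, hβc] at h1
  simp only [mul_zero, Pool.Agent.MP_81537f_an.wf_zero, tprod_one, mul_one] at h1
  rw [zero_pow (by omega : 2 * p + 2 ≠ 0), mul_zero, zero_add] at h1
  have hm : m = 0 := by
    by_contra hm
    rw [zero_pow hm] at h1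
    simp at h1
  subst hm
  rw [pow_zero, mul_one] at h1
  obtain ⟨d, y', hy0, hy'⟩ := Pool.Agent.MP_81537f_an.main p f a (β - Polynomial.C (β.eval 0)) y ha
    (by rwa [Polynomial.natDegree_sub_C]) (by simp) hy (by
      intro z
      rw [hf', pow_zero, mul_one, map_sub, Polynomial.aeval_C, ← add_sub_assoc, Complex.exp_sub]
      congr 1
      rw [eq_div_iff (Complex.exp_ne_zero _), Complex.coe_algebraMap, mul_right_comm, ← h1,
        one_mul]) n hn
  apply hnot
  refine ⟨1, 0, 0, -Pool.Agent.MP_81537f_an.expo (2 * p - 1) d y', y', le_rfl, ?_, ?_, ?_⟩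
  · rw [Polynomial.natDegree_neg]
    exact Pool.Agent.MP_81537f_an.expo_natDegree _ _ _
  · refine summable_of_ne_finset_zero (s := Finset.range d) fun k hk => ?_
    rw [Finset.mem_range, not_lt] at hk
    rw [hy0 k hk, abs_zero, zero_pow (by omega)]
  · intro z
    change f z = _ * ∏' n, Pool.Agent.MP_81537f_an.wf (2 * p - 1) (y' n * z)
    rw [tprod_eq_prod (s := Finset.range d), Pool.Agent.MP_81537f_an.prod_wf, hy', map_neg]
    · simp only [Complex.ofReal_zero, neg_zero, zero_mul, zero_add, pow_zero, mul_one, one_mul]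
      rw [mul_left_comm, ← Complex.exp_add, neg_add_cancel, Complex.exp_zero, mul_one]
    · intro k hk
      rw [Finset.mem_range, not_lt] at hk
      rw [hy0 k hk, Complex.ofReal_zero, zero_mul, Pool.Agent.MP_81537f_an.wf_zero]

end Pool.Agent.S05217
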