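import Pool.Statements.S05257
import Pool.Agent.MP_843cf2_an.Mg.Main

-- Template for statement S05257, which your task lets you prove directly.
-- Copy to Pool/Agent/S05257.lean and replace the sorry. The statement below is byte-identical to the frozen
-- statement Pool.MP_843cf2_an.PoolFrozen.S05257 (Pool/Statements/S05257.lean; the theorem Pool.MP_843cf2_an.main);
-- the grader kernel-checks Pool.Agent.S05257.result against that frozen type. Keep the theorem IN THIS FILE
-- (a `result` declared elsewhere and merely imported here is not credited); helpers may live anywhere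
-- under Pool/Agent/ except Pool/Agent/Results/<P>/, where every file is a hand-in, and Pool/Agent/OnPar/, which the grade drops.

set_option autoImplicit false
open Pool Pool.MP_843cf2_an

namespace Pool.Agent.S05257

/-- For every compact abelian group G and set Λ of characters: either Λ is Sidon, or every function F that maps real elements of A(Λ) with values in (-1,1) back into A(Λ) is real-analytic at 0. -/
theorem result :
  ∀ (G : Type) [CommGroup G] [TopologicalSpace G] [IsTopologicalGroup G] [CompactSpace G]
    [T2Space G] [MeasurableSpace G] [BorelSpace G] (Λ : Set (PontryaginDual G)),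
    (∃ C : ℝ, ∀ s : Finset (PontryaginDual G), (↑s : Set (PontryaginDual G)) ⊆ Λ →
        ∀ (a : PontryaginDual G → ℂ) (M : ℝ),
          (∀ x : G, ‖∑ γ ∈ s, a γ * ((γ x : Circle) : ℂ)‖ ≤ M) →
          ∑ γ ∈ s, ‖a γ‖ ≤ C * M)
    ∨ ∀ F : ℝ → ℂ,
        (∀ φ : PontryaginDual G → ℝ,
          (∀ γ ∈ Λ, φ γ ∈ Set.Ioo (-1 : ℝ) 1) →
          (∃ f : G → ℂ, MeasureTheory.Integrable f (MeasureTheory.Measure.haar : MeasureTheory.Measure G) ∧
            ∀ γ ∈ Λ, (φ γ : ℂ) =
              ∫ x, f x * (starRingEnd ℂ) ((γ x : Circle) : ℂ) ∂(MeasureTheory.Measure.haar : MeasureTheory.Measure G)) →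
          (∃ g : G → ℂ, MeasureTheory.Integrable g (MeasureTheory.Measure.haar : MeasureTheory.Measure G) ∧
            ∀ γ ∈ Λ, F (φ γ) =
              ∫ x, g x * (starRingEnd ℂ) ((γ x : Circle) : ℂ) ∂(MeasureTheory.Measure.haar : MeasureTheory.Measure G))) →
        AnalyticAt ℝ F 0 := by
  intro G _ _ _ _ _ _ _ Λ
  rcases Pool.Agent.MP_843cf2_an.dichotomy Λ with h | h
  · exact Or.inl h
  · refine Or.inr fun F hF => h F fun φ h1 h2 => ?_
    exact (Pool.Agent.MP_843cf2_an.inA_iff _ _).2
      (hF φ h1 ((Pool.Agent.MP_843cf2_an.inA_iff _ _).1 h2))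

end Pool.Agent.S05257
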