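import Pool.Statements.S05483
import Pool.Agent.Sok.Top
import Pool.Agent.Sok.EAll

set_option autoImplicit false
open Pool Pool.MP_97ada9_an

namespace Pool.Agent.S05483

/-- For every N ≥ 1 and complex q with ∣q∣ < 1, the polynomial sum of binom(N,n) q^(n(n-1)/2) z^n has only simple roots, and any two distinct roots z, w with ∣z∣ ≤ ∣w∣ satisfy ∣z∣ ≤ ∣q∣·∣w∣. -/
theorem result :
    ∀ N : ℕ, 0 < N → ∀ q : ℂ, ‖q‖ < 1 →
      ∀ P : Polynomial ℂ,
        P = ∑ n ∈ Finset.range (N + 1),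
              Polynomial.C ((N.choose n : ℂ) * q ^ (n * (n - 1) / 2)) * Polynomial.X ^ n →
        P.roots.Nodup ∧
          ∀ z w : ℂ, P.IsRoot z → P.IsRoot w → z ≠ w → ‖z‖ ≤ ‖w‖ →
            ‖z‖ ≤ ‖q‖ * ‖w‖ := by
  exact Pool.Agent.MP_97ada9_an.reduction (Pool.Agent.Sok.partE Pool.Agent.Sok.asym)

end Pool.Agent.S05483
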