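import Pool.Statements.S05573
import Pool.Agent.MP_9e511b_an.Mg.Main

-- Template for statement S05573, which your task lets you prove directly.
-- Copy to Pool/Agent/S05573.lean and replace the sorry. The statement below is byte-identical to the frozen
-- statement Pool.MP_9e511b_an.PoolFrozen.S05573 (Pool/Statements/S05573.lean; the theorem Pool.MP_9e511b_an.main);
-- the grader kernel-checks Pool.Agent.S05573.result against that frozen type. Keep the theorem IN THIS FILE
-- (a `result` declared elsewhere and merely imported here is not credited); helpers may live anywhere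
-- under Pool/Agent/ except Pool/Agent/Results/<P>/, where every file is a hand-in, and Pool/Agent/OnPar/, which the grade drops.

set_option autoImplicit false
open Pool Pool.MP_9e511b_an

namespace Pool.Agent.S05573

/-- For every dimension d ≥ 1 and every p > d there is c < 1 such that, for all nonempty bounded open Ω in R^d, the first p-Laplacian Dirichlet eigenvalue times the p-torsion is at most c·∣Ω∣^(p−1). -/
theorem result :
    ∀ d : ℕ, 1 ≤ d → ∀ p : ℝ, (d : ℝ) < p →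
      ∃ c : ℝ, c < 1 ∧
        ∀ Ω : Set (EuclideanSpace ℝ (Fin d)), IsOpen Ω → Bornology.IsBounded Ω → Ω.Nonempty →
          ∀ ψ : EuclideanSpace ℝ (Fin d) → ℝ, ContDiff ℝ (⊤ : ℕ∞) ψ → HasCompactSupport ψ →
            tsupport ψ ⊆ Ω → ψ ≠ 0 →
            (⨅ φ : {φ : EuclideanSpace ℝ (Fin d) → ℝ //
                  ContDiff ℝ (⊤ : ℕ∞) φ ∧ HasCompactSupport φ ∧ tsupport φ ⊆ Ω ∧ φ ≠ 0},
                (∫ x, ‖fderiv ℝ φ.1 x‖ ^ p) / (∫ x, |φ.1 x| ^ p)) *
              ((∫ x, |ψ x|) ^ p / (∫ x, ‖fderiv ℝ ψ x‖ ^ p))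
            ≤ c * ((MeasureTheory.volume Ω).toReal) ^ (p - 1) := by
  intro d hd p hp
  have : Nonempty (Fin d) := ⟨⟨0, hd⟩⟩
  have hp1 : 1 < p := lt_of_le_of_lt (by exact_mod_cast hd) hp
  have hp' : (Module.finrank ℝ (EuclideanSpace ℝ (Fin d)) : ℝ) < p := by
    rwa [finrank_euclideanSpace_fin]
  obtain ⟨c, hc, h⟩ := Pool.Agent.MP_9e511b_an.strict_polya
    (MeasureTheory.volume : MeasureTheory.Measure (EuclideanSpace ℝ (Fin d))) hp1 hp'
  refine ⟨c, hc, fun Ω hΩ hb hne ψ h1 h2 h3 h4 => h Ω hΩ hb hne _ ?_ ψ h1 h2 h3 h4⟩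
  intro φ g1 g2 g3 g4
  refine ciInf_le (f := fun φ : {φ : EuclideanSpace ℝ (Fin d) → ℝ //
      ContDiff ℝ (⊤ : ℕ∞) φ ∧ HasCompactSupport φ ∧ tsupport φ ⊆ Ω ∧ φ ≠ 0} =>
      (∫ x, ‖fderiv ℝ φ.1 x‖ ^ p) / (∫ x, |φ.1 x| ^ p)) ⟨0, ?_⟩ ⟨φ, g1, g2, g3, g4⟩
  rintro _ ⟨φ', rfl⟩
  exact div_nonneg (MeasureTheory.integral_nonneg fun _ => by positivity)
    (MeasureTheory.integral_nonneg fun _ => by positivity)

end Pool.Agent.S05573
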