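import Pool.Statements.S05635
import Pool.Agent.MP_a1b43b_an.Mg.Orbit

-- Template for statement S05635, which your task lets you prove directly.
-- Copy to Pool/Agent/S05635.lean and replace the sorry. The statement below is byte-identical to the frozen
-- statement Pool.MP_a1b43b_an.PoolFrozen.S05635 (Pool/Statements/S05635.lean; the theorem Pool.MP_a1b43b_an.main);
-- the grader kernel-checks Pool.Agent.S05635.result against that frozen type. Keep the theorem IN THIS FILE
-- (a `result` declared elsewhere and merely imported here is not credited); helpers may live anywhere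
-- under Pool/Agent/ except Pool/Agent/Results/<P>/, where every file is a hand-in, and Pool/Agent/OnPar/, which the grade drops.

set_option autoImplicit false
open scoped ContDiff
open Pool Pool.MP_a1b43b_an
open Pool.Agent.MP_a1b43b_an

namespace Pool.Agent.S05635

/-- There is a C^∞ vector field F on R^3 with F(0)=0, all complex eigenvalues of its Jacobian at every point having negative real part, and a non-constant periodic solution of x' = F(x). -/
theorem result :
    ∃ F : (Fin 3 → ℝ) → (Fin 3 → ℝ),
      ContDiff ℝ ∞ F ∧ F 0 = 0 ∧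
      (∀ (x : Fin 3 → ℝ) (z : ℂ),
        Polynomial.aeval z
            (LinearMap.toMatrix' (fderiv ℝ F x).toLinearMap).charpoly = 0 →
          z.re < 0) ∧
      ∃ γ : ℝ → (Fin 3 → ℝ), ∃ T : ℝ, 0 < T ∧
        (∀ t : ℝ, HasDerivAt γ (F (γ t)) t) ∧
        (∀ t : ℝ, γ (t + T) = γ t) ∧
        ∃ t : ℝ, γ t ≠ γ 0 := by
  obtain ⟨k, hk, hkpos, hkeq⟩ := posExt pk cd_k pos_k
  obtain ⟨B, b, hB, hBd, hbpos, hBeq⟩ := monoExt pB pBp hd_B cd_Bp pos_Bp
  obtain ⟨S, s, hS, hSd, hspos, hSeq⟩ := monoExt pS pSp hd_S cd_Sp pos_Sp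
  obtain ⟨θ, T, hT, hθ, hper, hsurj⟩ := exists_angle om om_cont om_pos om_per
  obtain ⟨s0, -, hs0⟩ : ∃ s0 ∈ Set.Icc (-1 : ℝ) 1, S s0 = 0 := by
    have h1 : S (-1) = pS (-1) := hSeq _ (by norm_num)
    have h2 : S 1 = pS 1 := hSeq _ (by norm_num)
    apply intermediate_value_Icc (by norm_num) hS.continuous.continuousOn
    rw [h1, h2]
    unfold pS
    constructor <;> norm_num
  let x0 : ℝ := pG s0 / k s0
  let u0 : Fin 3 → ℝ := ![x0, s0 - (1 / 400) * (x0 * x0), B s0]
  have hsc : sc (1 / 400) u0 = s0 := by simp [sc, u0]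
  have hf0 : f1 (1 / 400) pG k u0 = 0 := by
    unfold f1
    rw [hsc]
    have : k s0 ≠ 0 := (hkpos s0).ne'
    simp only [u0, x0, Matrix.cons_val_zero]
    field_simp
    ring
  have hF := contDiff_fld (1 / 400) cd_G hk hB hS
  refine ⟨fun u => fld (1 / 400) pG k B S (u + u0), hF.comp (contDiff_id.add contDiff_const),
    ?_, ?_, fun t => curve (θ t) - u0, T, hT, ?_, ?_, ?_⟩
  · show fld (1 / 400) pG k B S (0 + u0) = 0
    rw [zero_add]
    unfold fld
    rw [hf0, hsc, hs0]
    ext i
    fin_cases i <;> simp [u0]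
  · intro x z hz
    rw [fderiv_comp_add_right] at hz
    exact hurwitz (1 / 400) (x + u0)
      ((cd_G.differentiable (by simp)) _).hasDerivAt
      ((hk.differentiable (by simp)) _).hasDerivAt (hBd _) (hSd _)
      (hkpos _) (hbpos _) (hspos _) z hz
  · intro t
    have := (orbit hkeq hBeq hSeq θ t (hθ t)).sub_const u0
    simpa using this
  · intro t
    simp only [hper, curve_per]
  · by_contra hcon
    have hall : ∀ t, Real.cos (θ t) = Real.cos (θ 0) := by
      intro t
      have h1 : curve (θ t) - u0 = curve (θ 0) - u0 := by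
        by_contra h
        exact hcon ⟨t, h⟩
      rw [← sc_curve, ← sc_curve, sub_left_injective h1]
    obtain ⟨t1, h1⟩ := hsurj 0
    obtain ⟨t2, h2⟩ := hsurj Real.pi
    have e1 := hall t1
    have e2 := hall t2
    rw [h1, Real.cos_zero] at e1
    rw [h2, Real.cos_pi] at e2
    linarith

end Pool.Agent.S05635
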