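import Pool.Statements.S05645
import Pool.Agent.MP_a25fb7_an.Mg.Cn_GlueB

-- Template for statement S05645, which your task lets you prove directly.
-- Copy to Pool/Agent/S05645.lean. The statement below is byte-identical to the frozen
-- statement Pool.MP_a25fb7_an.PoolFrozen.S05645 (Pool/Statements/S05645.lean; the theorem Pool.MP_a25fb7_an.main);
-- the grader kernel-checks Pool.Agent.S05645.result against that frozen type. Keep the theorem IN THIS FILE
-- (a `result` declared elsewhere and merely imported here is not credited); helpers may live anywhere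
-- under Pool/Agent/ except Pool/Agent/Results/<P>/, where every file is a hand-in, and Pool/Agent/OnPar/, which the grade drops.

set_option autoImplicit false
open MeasureTheory
open Pool Pool.MP_a25fb7_an

namespace Pool.Agent.S05645

/-- For all d≥1 and 0≤β<1 there is C such that every f in W^{1,1}(R^d) has centered fractional maximal function M_β f weakly differentiable, with the L^{d/(d-β)} norm of its weak gradient at most C times the W^{1,1} norm of f. -/
theorem result :
    ∀ d : ℕ, 1 ≤ d → ∀ β : ℝ, 0 ≤ β → β < 1 →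
    ∃ C : ℝ, 0 ≤ C ∧
    ∀ f : EuclideanSpace ℝ (Fin d) → ℝ,
    ∀ g : EuclideanSpace ℝ (Fin d) → EuclideanSpace ℝ (Fin d),
      Integrable f volume → Integrable g volume →
      (∀ φ : EuclideanSpace ℝ (Fin d) → ℝ, ContDiff ℝ (⊤ : ℕ∞) φ → HasCompactSupport φ →
        ∀ v : EuclideanSpace ℝ (Fin d),
          ∫ x, f x * fderiv ℝ φ x v = - ∫ x, φ x * inner ℝ (g x) v) →
      ∀ Mf : EuclideanSpace ℝ (Fin d) → ENNReal,
      (∀ x, Mf x = ⨆ r : ℝ, ⨆ (_ : 0 < r),
          (volume (Metric.ball x r) ^ (1 - β / (d : ℝ)))⁻¹ *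
            ∫⁻ y in Metric.ball x r, ‖f y‖ₑ) →
      (∀ᵐ x ∂(volume : Measure (EuclideanSpace ℝ (Fin d))), Mf x < ⊤) ∧
      LocallyIntegrable (fun x => (Mf x).toReal) volume ∧
      ∃ G : EuclideanSpace ℝ (Fin d) → EuclideanSpace ℝ (Fin d),
        LocallyIntegrable G volume ∧
        (∀ φ : EuclideanSpace ℝ (Fin d) → ℝ, ContDiff ℝ (⊤ : ℕ∞) φ → HasCompactSupport φ →
          ∀ v : EuclideanSpace ℝ (Fin d),
            ∫ x, (Mf x).toReal * fderiv ℝ φ x v = - ∫ x, φ x * inner ℝ (G x) v) ∧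
        eLpNorm G (ENNReal.ofReal ((d : ℝ) / ((d : ℝ) - β))) volume ≤
          ENNReal.ofReal C * (eLpNorm f 1 volume + eLpNorm g 1 volume) := by
  intro d hd β hβ0 hβ1
  have hd' : (1 : ℝ) ≤ d := by exact_mod_cast hd
  have h1 : β / d < 1 := by rw [div_lt_iff₀ (by linarith)]; linarith
  have h2 : 0 ≤ β / d := by positivity
  have : Nonempty (Fin d) := ⟨⟨0, hd⟩⟩
  obtain ⟨C, hC, h⟩ := Pool.Agent.MP_a25fb7_an.Cn.cmain
    (volume : Measure (EuclideanSpace ℝ (Fin d))) (s := 1 - β / d) (by linarith) (by linarith)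
  refine ⟨C.toReal, ENNReal.toReal_nonneg, fun f g hf hg hw Mf hM => ?_⟩
  have e1 := hf.1.ae_eq_mk
  have e2 := hg.1.ae_eq_mk
  have e3 : Mf = Pool.Agent.MP_a25fb7_an.Mc volume (1 - β / d) fun y => ‖hf.1.mk f y‖ₑ := by
    funext x
    rw [hM]
    refine iSup_congr fun r => iSup_congr fun _ => ?_
    unfold Pool.Agent.MP_a25fb7_an.aB
    congr 1
    refine lintegral_congr_ae (ae_restrict_of_ae ?_)
    filter_upwards [e1] with y hy
    rw [hy]
  have e4 : (d : ℝ) / (d - β) = (1 - β / d)⁻¹ := by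
    have : (d : ℝ) - β ≠ 0 := by linarith
    field_simp
  rw [e3, e4, ENNReal.ofReal_toReal hC, eLpNorm_congr_ae e2]
  obtain ⟨a1, a2, G, a3, a4, a5⟩ := h _ _ hf.1.stronglyMeasurable_mk.measurable
    hg.1.stronglyMeasurable_mk.measurable (hf.congr e1) (hg.congr e2) fun φ hφ hc v => by
      have a1 : ∫ x, f x * fderiv ℝ φ x v = ∫ x, hf.1.mk f x * fderiv ℝ φ x v :=
        integral_congr_ae (by filter_upwards [e1] with x hx; rw [← hx])
      have a2 : ∫ x, φ x * inner ℝ (g x) v = ∫ x, φ x * inner ℝ (hg.1.mk g x) v :=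
        integral_congr_ae (by filter_upwards [e2] with x hx; rw [← hx])
      rw [← a1, ← a2]
      exact hw φ hφ hc v
  exact ⟨a1, a2, G, a3, a4, a5.trans (mul_le_mul_right le_add_self _)⟩

end Pool.Agent.S05645
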