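import Pool.Statements.S05708
import Pool.Agent.MP_a65686_an.NoDual

set_option autoImplicit false
open Pool Pool.MP_a65686_an

namespace Pool.Agent.S05708

/-- The negation of the preceding statement: If a real Banach space has an uncountable unconditional basis and an equivalent Gâteaux differentiable norm, then it has an equivalent norm whose dual norm on the dual space is strictly convex. -/
theorem result :
    ¬ (∀ (X : Type) [NormedAddCommGroup X] [NormedSpace ℝ X] [CompleteSpace X],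
      (∃ (I : Type) (e : I → X) (f : I → (X →L[ℝ] ℝ)),
          Uncountable I ∧
          (∀ i : I, f i (e i) = 1) ∧
          (∀ i j : I, i ≠ j → f i (e j) = 0) ∧
          ∀ x : X, HasSum (fun i => f i x • e i) x) →
      (∃ N : X → ℝ,
          (∃ c C : ℝ, 0 < c ∧ 0 < C ∧ ∀ x : X, c * ‖x‖ ≤ N x ∧ N x ≤ C * ‖x‖) ∧
          (∀ x y : X, N (x + y) ≤ N x + N y) ∧
          (∀ (a : ℝ) (x : X), N (a • x) = |a| * N x) ∧
          ∀ x : X, x ≠ 0 → ∃ L : X →L[ℝ] ℝ,
            ∀ h : X, HasDerivAt (fun t : ℝ => N (x + t • h)) (L h) 0) →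
      ∃ N : X → ℝ,
          (∃ c C : ℝ, 0 < c ∧ 0 < C ∧ ∀ x : X, c * ‖x‖ ≤ N x ∧ N x ≤ C * ‖x‖) ∧
          (∀ x y : X, N (x + y) ≤ N x + N y) ∧
          (∀ (a : ℝ) (x : X), N (a • x) = |a| * N x) ∧
          ∀ φ ψ : X →L[ℝ] ℝ, φ ≠ ψ →
            sSup ((fun x => φ x) '' {x : X | N x ≤ 1}) = 1 →
            sSup ((fun x => ψ x) '' {x : X | N x ≤ 1}) = 1 →
            sSup ((fun x => (φ + ψ) x) '' {x : X | N x ≤ 1}) < 2) := by
  intro H
  obtain ⟨G, _, _, hU, hc, e, he⟩ := Pool.Agent.MP_a65686_an.exists_index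
  have H1 := H (Pool.Agent.MP_a65686_an.X e) (by
    refine ⟨G, Pool.Agent.MP_a65686_an.bas e,
      fun a => Pool.Agent.MP_a65686_an.ev (Pool.Agent.MP_a65686_an.dlt e a), hU,
      fun a => ?_, fun a b hab => ?_, fun x => ?_⟩
    · simp [Pool.Agent.MP_a65686_an.dlt]
    · simp [Pool.Agent.MP_a65686_an.dlt, hab.symm]
    · exact Pool.Agent.MP_a65686_an.hasSum_bas x) (by
    refine ⟨fun x => ‖x‖, ⟨1, 1, one_pos, one_pos, fun x => ?_⟩, fun x y => ?_, fun a x => ?_,
      fun x hx => ?_⟩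
    · simp
    · exact norm_add_le x y
    · exact norm_smul a x.1
    · exact Pool.Agent.MP_a65686_an.gateaux x hx)
  obtain ⟨N, ⟨c, C, hc0, hC0, hN⟩, hadd, hsmul, hsc⟩ := H1
  obtain ⟨φ, ψ, hne, h1, h2, h3⟩ :=
    Pool.Agent.MP_a65686_an.no_dual hc he N c C hc0 hC0 hN hadd hsmul
  exact absurd (hsc φ ψ hne h1 h2) (not_lt.mpr h3)

end Pool.Agent.S05708
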