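import Pool.Statements.S05760
import Pool.Agent.MP_aa8c71_an.Mg.Dyn

-- Template for statement S05760, which your task lets you prove directly.
-- Copy to Pool/Agent/S05760.lean and replace the sorry. The statement below is byte-identical to the frozen
-- statement Pool.MP_aa8c71_an.PoolFrozen.S05760 (Pool/Statements/S05760.lean; the theorem Pool.MP_aa8c71_an.not_main);
-- the grader kernel-checks Pool.Agent.S05760.result against that frozen type. Keep the theorem IN THIS FILE
-- (a `result` declared elsewhere and merely imported here is not credited); helpers may live anywhere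
-- under Pool/Agent/ except Pool/Agent/Results/<P>/, where every file is a hand-in, and Pool/Agent/OnPar/, which the grade drops.

set_option autoImplicit false
open Pool Pool.MP_aa8c71_an

namespace Pool.Agent.S05760

/-- The negation of the preceding statement: For every transcendental entire f and every Fatou component U with f(U) inside U, each connected component of the complement of the closure of U contains a point of the Julia set (Fatou set defined by chordal equicontinuity of iterates). -/
theorem result :
    ¬ (∀ f : ℂ → ℂ, Differentiable ℂ f →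
      (¬ ∃ p : Polynomial ℂ, ∀ z, f z = p.eval z) →
      ∀ F : Set ℂ,
        F = {z : ℂ | ∃ V : Set ℂ, IsOpen V ∧ z ∈ V ∧
              ∀ y ∈ V, ∀ ε : ℝ, 0 < ε → ∃ δ : ℝ, 0 < δ ∧
                ∀ w : ℂ, dist w y < δ → ∀ n : ℕ,
                  2 * ‖f^[n] y - f^[n] w‖ /
                    (Real.sqrt (1 + ‖f^[n] y‖ ^ 2) * Real.sqrt (1 + ‖f^[n] w‖ ^ 2)) < ε} →
        ∀ z₀ ∈ F, f '' (connectedComponentIn F z₀) ⊆ connectedComponentIn F z₀ →
          ∀ x ∈ (closure (connectedComponentIn F z₀))ᶜ,
            ∃ y ∈ connectedComponentIn (closure (connectedComponentIn F z₀))ᶜ x, y ∉ F) := by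
  intro h
  obtain ⟨f, H⟩ := Pool.Agent.MP_aa8c71_an.exists_hyp
  obtain ⟨y, hy, hy'⟩ := h f H.diff H.not_poly (Pool.Agent.MP_aa8c71_an.FS f) rfl
    Pool.Agent.MP_aa8c71_an.pt H.pt_mem H.invariant (Pool.Agent.MP_aa8c71_an.ctr 0) H.ctr_not_mem
  exact hy' (H.comp_subset hy)

end Pool.Agent.S05760
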