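import Pool.Statements.S05983
import Pool.Agent.MP_be9872_an.Mg.Main

-- Template for statement S05983, which your task lets you prove directly.
-- Copy to Pool/Agent/S05983.lean and replace the sorry. The statement below is byte-identical to the frozen
-- statement Pool.MP_be9872_an.PoolFrozen.S05983 (Pool/Statements/S05983.lean; the theorem Pool.MP_be9872_an.main);
-- the grader kernel-checks Pool.Agent.S05983.result against that frozen type. Keep the theorem IN THIS FILE
-- (a `result` declared elsewhere and merely imported here is not credited); helpers may live anywhere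
-- under Pool/Agent/ except Pool/Agent/Results/<P>/, where every file is a hand-in, and Pool/Agent/OnPar/, which the grade drops.

set_option autoImplicit false
open scoped ContDiff
open Pool Pool.MP_be9872_an

namespace Pool.Agent.S05983

/-- Some smooth strictly convex billiard table with positive curvature has two distinct convex caustics, each a convex body inside the table whose tangent lines the reflection law carries to tangent lines, with neither boundary lying inside the other's interior. -/
theorem result :
    ∃ γ : ℝ → ℂ, ContDiff ℝ ∞ γ ∧ Function.Periodic γ 1 ∧ Set.InjOn γ (Set.Ico 0 1) ∧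
      (∀ t : ℝ, deriv γ t ≠ 0) ∧
      (∀ t : ℝ, 0 < (starRingEnd ℂ (deriv γ t) * deriv (deriv γ) t).im) ∧
      ∃ K₁ K₂ : Set ℂ, K₁ ≠ K₂ ∧
        (∀ K ∈ ({K₁, K₂} : Set (Set ℂ)),
          IsCompact K ∧ Convex ℝ K ∧ (interior K).Nonempty ∧
          K ⊆ interior (convexHull ℝ (Set.range γ)) ∧
          ∀ t : ℝ, ∀ u : ℂ, u ≠ 0 →
            ((∃ s : ℝ, γ t + (s : ℂ) * u ∈ K) ∧
              ((∀ w ∈ K, 0 ≤ (starRingEnd ℂ u * (w - γ t)).im) ∨
               (∀ w ∈ K, (starRingEnd ℂ u * (w - γ t)).im ≤ 0))) →
            ((∃ s : ℝ, γ t + (s : ℂ) * ((deriv γ t) ^ 2 * starRingEnd ℂ u) ∈ K) ∧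
              ((∀ w ∈ K, 0 ≤ (starRingEnd ℂ ((deriv γ t) ^ 2 * starRingEnd ℂ u) * (w - γ t)).im) ∨
               (∀ w ∈ K, (starRingEnd ℂ ((deriv γ t) ^ 2 * starRingEnd ℂ u) * (w - γ t)).im ≤ 0)))) ∧
        ¬ (frontier K₁ ⊆ interior K₂) ∧ ¬ (frontier K₂ ⊆ interior K₁) := by
  exact Pool.Agent.MP_be9872_an.main_goal

end Pool.Agent.S05983
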