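import Pool.Statements.S05995
import Pool.Agent.MP_bf8c07_an_h89.Mg.Final

-- Template for statement S05995, which your task lets you prove directly.
-- Copy to Pool/Agent/S05995.lean and replace the sorry. The statement below is byte-identical to the frozen
-- statement Pool.MP_bf8c07_an.PoolFrozen.S05995 (Pool/Statements/S05995.lean; the theorem Pool.MP_bf8c07_an.main);
-- the grader kernel-checks Pool.Agent.S05995.result against that frozen type. Keep the theorem IN THIS FILE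
-- (a `result` declared elsewhere and merely imported here is not credited); helpers may live anywhere
-- under Pool/Agent/ except Pool/Agent/Results/<P>/, where every file is a hand-in, and Pool/Agent/OnPar/, which the grade drops.

set_option autoImplicit false
open MeasureTheory
open Pool Pool.MP_bf8c07_an

namespace Pool.Agent.S05995

/-- For each d ≥ 1 there is C such that for every radial f in W^{1,1}(R^d) with weak gradient g, the centered maximal function Mf is a.e. finite, locally integrable, and has an integrable weak gradient G with ∫∣G∣ ≤ C ∫∣g∣. -/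
theorem result :
  ∀ d : ℕ, 1 ≤ d → ∃ C : ℝ, 0 ≤ C ∧
    ∀ (f : EuclideanSpace ℝ (Fin d) → ℝ)
      (g : EuclideanSpace ℝ (Fin d) → EuclideanSpace ℝ (Fin d)),
      (∀ x y : EuclideanSpace ℝ (Fin d), ‖x‖ = ‖y‖ → f x = f y) →
      Integrable f → Integrable g →
      (∀ φ : EuclideanSpace ℝ (Fin d) → ℝ,
        ContDiff ℝ ((⊤ : ℕ∞) : WithTop ℕ∞) φ → HasCompactSupport φ →
        ∀ v : EuclideanSpace ℝ (Fin d),
          ∫ x, f x * fderiv ℝ φ x v = - ∫ x, inner ℝ (g x) v * φ x) →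
      (∀ᵐ x ∂(volume : Measure (EuclideanSpace ℝ (Fin d))),
          (⨆ (r : ℝ) (_ : 0 < r),
            (volume (Metric.ball x r))⁻¹ * ∫⁻ y in Metric.ball x r, ‖f y‖ₑ) < ⊤) ∧
      ∃ G : EuclideanSpace ℝ (Fin d) → EuclideanSpace ℝ (Fin d),
        Integrable G ∧
        LocallyIntegrable (fun x : EuclideanSpace ℝ (Fin d) =>
          (⨆ (r : ℝ) (_ : 0 < r),
            (volume (Metric.ball x r))⁻¹ * ∫⁻ y in Metric.ball x r, ‖f y‖ₑ).toReal) ∧
        (∀ φ : EuclideanSpace ℝ (Fin d) → ℝ,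
          ContDiff ℝ ((⊤ : ℕ∞) : WithTop ℕ∞) φ → HasCompactSupport φ →
          ∀ v : EuclideanSpace ℝ (Fin d),
            ∫ x, (⨆ (r : ℝ) (_ : 0 < r),
              (volume (Metric.ball x r))⁻¹ * ∫⁻ y in Metric.ball x r, ‖f y‖ₑ).toReal
                * fderiv ℝ φ x v
              = - ∫ x, inner ℝ (G x) v * φ x) ∧
        ∫ x, ‖G x‖ ≤ C * ∫ x, ‖g x‖ := by
  intro d hd
  obtain ⟨n, rfl⟩ : ∃ n, d = n + 1 := ⟨d - 1, by omega⟩
  obtain ⟨C, hC, hG⟩ := MP_bf8c07_an_h89.global n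
  refine ⟨C, hC, fun f g hr hf hg hw => ?_⟩
  obtain ⟨F, a, P, hb, hae⟩ := MP_bf8c07_an_h89.profile n hr hf hg hw
  obtain ⟨g1, g2, g3⟩ := hG F a P
  obtain ⟨r1, r2, r3, r4⟩ := MP_bf8c07_an_h89.radial_weak n (measurable_deriv _)
    (fun x y hx hy => (g1 x y hx hy).2) g2
  have hM : ∀ᵐ x : EuclideanSpace ℝ (Fin (n + 1)),
      (⨆ (r : ℝ) (_ : 0 < r),
        (volume (Metric.ball x r))⁻¹ * ∫⁻ y in Metric.ball x r, ‖f y‖ₑ).toReal =
      MP_bf8c07_an_h89.sp n F (Set.Ioi 0) ‖x‖ := by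
    filter_upwards [MP_bf8c07_an_h89.ae_ne_zero n] with x hx
    rw [MP_bf8c07_an_h89.max_eq n hf P hae hx,
      ENNReal.toReal_ofReal ((P.F0 _).trans (P.F_le (norm_pos_iff.2 hx)))]
  refine ⟨?_, _, r1, ?_, fun φ h1 h2 v => ?_, ?_⟩
  · filter_upwards [MP_bf8c07_an_h89.ae_ne_zero n] with x hx
    rw [MP_bf8c07_an_h89.max_eq n hf P hae hx]
    exact ENNReal.ofReal_lt_top
  · intro x
    obtain ⟨s, hs, hi⟩ := r2 x
    exact ⟨s, hs, hi.congr (ae_restrict_of_ae (hM.mono fun y hy => hy.symm))⟩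
  · rw [← r3 φ h1 h2 v]
    refine integral_congr_ae (hM.mono fun x hx => ?_)
    simp only [hx]
  · rw [r4]
    have h0 := MP_bf8c07_an_h89.om_pos (n + 1)
    have e1 := mul_le_mul_of_nonneg_left g3
      (by positivity : (0 : ℝ) ≤ (n + 1) * MP_bf8c07_an_h89.om (n + 1))
    have e2 := mul_le_mul_of_nonneg_left hb hC
    linarith

end Pool.Agent.S05995
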