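import Pool.Statements.S06707
import Pool.Agent.MP_f47e6d_an.Mg.Sym

-- Template for statement S06707, which your task lets you prove directly.
-- Copy to Pool/Agent/S06707.lean and replace the sorry. The statement below is byte-identical to the frozen
-- statement Pool.MP_f47e6d_an.PoolFrozen.S06707 (Pool/Statements/S06707.lean; the theorem Pool.MP_f47e6d_an.main);
-- the grader kernel-checks Pool.Agent.S06707.result against that frozen type. Keep the theorem IN THIS FILE
-- (a `result` declared elsewhere and merely imported here is not credited); helpers may live anywhere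
-- under Pool/Agent/ except Pool/Agent/Results/<P>/, where every file is a hand-in, and Pool/Agent/OnPar/, which the grade drops.

set_option autoImplicit false
open Pool Pool.MP_f47e6d_an

namespace Pool.Agent.S06707

/-- For the map H(x,y)=(y,x+y^2) on C^2, every neighborhood U of the origin contains a periodic orbit of H (a point of some positive period) all of whose iterates lie in U and differ from the origin. -/
theorem result :
    ∀ U ∈ nhds ((0 : ℂ × ℂ)), ∃ p : ℂ × ℂ, ∃ n : ℕ, 0 < n ∧
      Function.IsPeriodicPt (fun q : ℂ × ℂ => (q.2, q.1 + q.2 ^ 2)) n p ∧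
      ∀ k : ℕ, (fun q : ℂ × ℂ => (q.2, q.1 + q.2 ^ 2))^[k] p ∈ U ∧
        (fun q : ℂ × ℂ => (q.2, q.1 + q.2 ^ 2))^[k] p ≠ 0 := by
  intro U hU
  obtain ⟨ε, hε, hball⟩ := Metric.mem_nhds_iff.1 hU
  obtain ⟨p, n, hn, hper, hall⟩ := Pool.Agent.MP_f47e6d_an.small_cycles hε
  refine ⟨p, n, hn, hper, fun k => ⟨hball ?_, (hall k).2⟩⟩
  rw [mem_ball_zero_iff]
  exact (hall k).1

end Pool.Agent.S06707
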