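import Pool.Statements.S06806
import Pool.Agent.MP_fc1aea_an.Mg.H30_Final

-- Template for statement S06806, which your task lets you prove directly.
-- Copy to Pool/Agent/S06806.lean and replace the sorry. The statement below is byte-identical to the frozen
-- statement Pool.MP_fc1aea_an.PoolFrozen.S06806 (Pool/Statements/S06806.lean; the theorem Pool.MP_fc1aea_an.not_main);
-- the grader kernel-checks Pool.Agent.S06806.result against that frozen type. Keep the theorem IN THIS FILE
-- (a `result` declared elsewhere and merely imported here is not credited); helpers may live anywhere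
-- under Pool/Agent/ except Pool/Agent/Results/<P>/, where every file is a hand-in, and Pool/Agent/OnPar/, which the grade drops.

set_option autoImplicit false
open MeasureTheory
open Pool Pool.MP_fc1aea_an

namespace Pool.Agent.S06806

/-- The negation of the preceding statement: For every p with 1 ≤ p < ∞ and p ≠ 2, any real Banach space uniformly homeomorphic to L_p[0,1] is linearly isomorphic to L_p[0,1] via a continuous linear equivalence. -/
theorem result :
    ¬ (∀ (p : ENNReal) [Fact (1 ≤ p)], p ≠ ⊤ → p ≠ 2 →
    ∀ (X : Type) [NormedAddCommGroup X] [NormedSpace ℝ X] [CompleteSpace X],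
      Nonempty (UniformEquiv X (Lp ℝ p (volume.restrict (Set.Icc (0:ℝ) 1)))) →
      Nonempty (X ≃L[ℝ] Lp ℝ p (volume.restrict (Set.Icc (0:ℝ) 1)))) := by
  intro H
  obtain ⟨X, i1, i2, i3, hu, hn⟩ := Pool.Agent.MP_fc1aea_an.H30.main
  exact hn (H 1 (by simp) (by norm_num) X hu)

end Pool.Agent.S06806
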