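import Pool.Statements.S07203
import Pool.Agent.MP_0f46a6_co.Mg.Geom

-- Template for statement S07203, which your task lets you prove directly.
-- Copy to Pool/Agent/S07203.lean and replace the sorry. The statement below is byte-identical to the frozen
-- statement Pool.MP_0f46a6_co.PoolFrozen.S07203 (Pool/Statements/S07203.lean; the theorem Pool.MP_0f46a6_co.main);
-- the grader kernel-checks Pool.Agent.S07203.result against that frozen type. Keep the theorem IN THIS FILE
-- (a `result` declared elsewhere and merely imported here is not credited); helpers may live anywhere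
-- under Pool/Agent/ except Pool/Agent/Results/<P>/, where every file is a hand-in, and Pool/Agent/OnPar/, which the grade drops.

set_option autoImplicit false
open Pool Pool.MP_0f46a6_co

namespace Pool.Agent.S07203

/-- For every finite X in R^d: if for each r some R^n has a monochromatic congruent copy of X under every r-colouring, then some R^n has, under every colouring, a congruent copy of X that is monochromatic or rainbow. -/
theorem result :
    ∀ (d : ℕ) (X : Finset (EuclideanSpace ℝ (Fin d))),
      (∀ r : ℕ, ∃ n : ℕ, ∀ c : EuclideanSpace ℝ (Fin n) → Fin r,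
        ∃ g : EuclideanSpace ℝ (Fin d) → EuclideanSpace ℝ (Fin n),
          (∀ x ∈ X, ∀ y ∈ X, dist (g x) (g y) = dist x y) ∧
          ∃ k : Fin r, ∀ x ∈ X, c (g x) = k) →
      ∃ n : ℕ, ∀ c : EuclideanSpace ℝ (Fin n) → ℝ,
        ∃ g : EuclideanSpace ℝ (Fin d) → EuclideanSpace ℝ (Fin n),
          (∀ x ∈ X, ∀ y ∈ X, dist (g x) (g y) = dist x y) ∧
          ((∃ k : ℝ, ∀ x ∈ X, c (g x) = k) ∨
            Set.InjOn (fun x => c (g x)) (↑X : Set (EuclideanSpace ℝ (Fin d)))) := by
  exact fun d X hX => Pool.Agent.MP_0f46a6_co.main d X hX

end Pool.Agent.S07203
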