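import Pool.Statements.S07701
import Pool.Agent.MP_250189_co.Mg.Final

-- Template for statement S07701, which your task lets you prove directly.
-- Copy to Pool/Agent/S07701.lean and replace the sorry. The statement below is byte-identical to the frozen
-- statement Pool.MP_250189_co.PoolFrozen.S07701 (Pool/Statements/S07701.lean; the theorem Pool.MP_250189_co.main);
-- the grader kernel-checks Pool.Agent.S07701.result against that frozen type. Keep the theorem IN THIS FILE
-- (a `result` declared elsewhere and merely imported here is not credited); helpers may live anywhere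
-- under Pool/Agent/ except Pool/Agent/Results/<P>/, where every file is a hand-in, and Pool/Agent/OnPar/, which the grade drops.

set_option autoImplicit false
open Pool Pool.MP_250189_co

namespace Pool.Agent.S07701

/-- Every 3-connected finite graph with a noncrossing straight-line plane drawing has one in which all bounded faces are convex, the outer face's complement is convex, and each vertex has a neighbour strictly closer to any other given vertex. -/
theorem result :
  ∀ (V : Type) [Fintype V] (G : SimpleGraph V),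
    4 ≤ Fintype.card V →
    (∀ S : Finset V, S.card ≤ 2 → (G.induce ((↑S : Set V)ᶜ)).Connected) →
    (∃ q : V → EuclideanSpace ℝ (Fin 2), Function.Injective q ∧
      (∀ a b w : V, G.Adj a b → w ≠ a → w ≠ b → q w ∉ segment ℝ (q a) (q b)) ∧
      (∀ a b c d : V, G.Adj a b → G.Adj c d → s(a, b) ≠ s(c, d) →
        segment ℝ (q a) (q b) ∩ segment ℝ (q c) (q d) ⊆
          ({q a, q b} : Set (EuclideanSpace ℝ (Fin 2))) ∩ {q c, q d})) →
    ∃ p : V → EuclideanSpace ℝ (Fin 2), Function.Injective p ∧
      (∀ a b w : V, G.Adj a b → w ≠ a → w ≠ b → p w ∉ segment ℝ (p a) (p b)) ∧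
      (∀ a b c d : V, G.Adj a b → G.Adj c d → s(a, b) ≠ s(c, d) →
        segment ℝ (p a) (p b) ∩ segment ℝ (p c) (p d) ⊆
          ({p a, p b} : Set (EuclideanSpace ℝ (Fin 2))) ∩ {p c, p d}) ∧
      (∀ x : EuclideanSpace ℝ (Fin 2),
        x ∉ (⋃ a : V, ⋃ b : V, ⋃ (_ : G.Adj a b), segment ℝ (p a) (p b)) →
        (Bornology.IsBounded (connectedComponentIn
            (⋃ a : V, ⋃ b : V, ⋃ (_ : G.Adj a b), segment ℝ (p a) (p b))ᶜ x) →
          Convex ℝ (connectedComponentIn
            (⋃ a : V, ⋃ b : V, ⋃ (_ : G.Adj a b), segment ℝ (p a) (p b))ᶜ x)) ∧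
        (¬ Bornology.IsBounded (connectedComponentIn
            (⋃ a : V, ⋃ b : V, ⋃ (_ : G.Adj a b), segment ℝ (p a) (p b))ᶜ x) →
          Convex ℝ (connectedComponentIn
            (⋃ a : V, ⋃ b : V, ⋃ (_ : G.Adj a b), segment ℝ (p a) (p b))ᶜ x)ᶜ)) ∧
      (∀ u v : V, u ≠ v → ∃ w : V, G.Adj u w ∧ dist (p w) (p v) < dist (p u) (p v)) := by
  intro V _ G h4 h3 ⟨q, q1, _, q3⟩
  classical
  have hc : ∀ C : Set V, C.ncard ≤ 2 → Pool.Agent.MP_250189_co.Conn G Cᶜ := by
    intro C hC
    have := Pool.Agent.MP_250189_co.conn_of_induce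
      (h3 C.toFinset (by rwa [← Set.ncard_eq_toFinset_card']))
    rwa [Set.coe_toFinset] at this
  have hd : ∀ a b c : V, ∃ d, d ≠ a ∧ d ≠ b ∧ d ≠ c := by
    intro a b c
    by_contra hn
    have h1 : (Finset.univ : Finset V) ⊆ {a, b, c} := by
      intro d _
      by_contra k
      simp only [Finset.mem_insert, Finset.mem_singleton, not_or] at k
      exact hn ⟨d, k⟩
    have h2 := (Finset.card_le_card h1).trans Finset.card_le_three
    rw [Finset.card_univ] at h2
    omega
  have hdeg : ∀ a, ∃ b, G.Adj a b := by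
    intro a
    obtain ⟨d, k, -⟩ := hd a a a
    obtain ⟨w, -, hw⟩ := Pool.Agent.MP_250189_co.exists_nbr (hc ∅ (by simp)) (a := a) (b := d)
      (by simp) (by simp) k.symm
    exact ⟨w, hw⟩
  obtain ⟨z⟩ : Nonempty V := Fintype.card_pos_iff.1 (by omega)
  obtain ⟨u, hzu⟩ := hdeg z
  obtain ⟨x, y, P, E, k1, k2, k3, k4, k5, k6⟩ := Pool.Agent.MP_250189_co.exists_shelling hc hd
    (Pool.Agent.MP_250189_co.noK_of_drawing G q q1 q3) hzu
  obtain ⟨κ, hκ, k7⟩ := Pool.Agent.MP_250189_co.exists_squash x y k6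
  have af : Pool.Agent.MP_250189_co.Aff Set.univ x y (fun a => κ * y a) κ 0 0 :=
    fun a _ => by ring
  have fin := Pool.Agent.MP_250189_co.shell_final G x (fun a => κ * y a) k1 u z P [] E
    (k2.aff af hκ (fun _ _ => trivial) fun _ _ => ⟨trivial, trivial⟩) k3
    (af.cvx hκ (fun _ _ => trivial) k3 k4) trivial k5 hdeg
    (fun a => WithLp.toLp 2 ![x a, κ * y a]) (fun _ => rfl) (fun _ => rfl)
  refine ⟨fun a => WithLp.toLp 2 ![x a, κ * y a], fun a b hab => k1 ?_, fin.1, fin.2.1, fin.2.2,
    fun a t hat => ?_⟩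
  · exact congrArg (fun p : EuclideanSpace ℝ (Fin 2) => p 0) hab
  · obtain ⟨w, j1, j2⟩ := k7 a t hat
    refine ⟨w, j1, ?_⟩
    rw [EuclideanSpace.dist_eq, EuclideanSpace.dist_eq]
    refine Real.sqrt_lt_sqrt (by positivity) ?_
    simpa [Fin.sum_univ_two, Real.dist_eq, sq_abs] using j2

end Pool.Agent.S07701
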