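import Pool.Statements.S07717
import Pool.Agent.MP_25e033_co.Mg.Main

-- Template for statement S07717, which your task lets you prove directly.
-- Copy to Pool/Agent/S07717.lean and replace the sorry. The statement below is byte-identical to the frozen
-- statement Pool.MP_25e033_co.PoolFrozen.S07717 (Pool/Statements/S07717.lean; the theorem Pool.MP_25e033_co.main);
-- the grader kernel-checks Pool.Agent.S07717.result against that frozen type. Keep the theorem IN THIS FILE
-- (a `result` declared elsewhere and merely imported here is not credited); helpers may live anywhere
-- under Pool/Agent/ except Pool/Agent/Results/<P>/, where every file is a hand-in, and Pool/Agent/OnPar/, which the grade drops.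

set_option autoImplicit false
open Pool Pool.MP_25e033_co

namespace Pool.Agent.S07717

/-- For every Latin square L of order n, any set of cells such that L is the only Latin square of order n agreeing with L on those cells has at least floor(n^2/4) cells. -/
theorem result :
    ∀ n : ℕ, ∀ L : Fin n → Fin n → Fin n,
      (∀ i, Function.Injective (L i)) →
      (∀ j, Function.Injective (fun i => L i j)) →
      ∀ S : Finset (Fin n × Fin n),
        (∀ M : Fin n → Fin n → Fin n,
          (∀ i, Function.Injective (M i)) →
          (∀ j, Function.Injective (fun i => M i j)) →
          (∀ p ∈ S, M p.1 p.2 = L p.1 p.2) → M = L) →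
        n ^ 2 / 4 ≤ S.card := by
  intro n L hr hc S hS
  exact Pool.Agent.MP_25e033_co.nelder n L hr hc S hS

end Pool.Agent.S07717
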