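import Pool.Statements.S08023
import Pool.Agent.MP_343cc6_co.Mg.Neg

-- Template for statement S08023, which your task lets you prove directly.
-- Copy to Pool/Agent/S08023.lean and replace the sorry. The statement below is byte-identical to the frozen
-- statement Pool.MP_343cc6_co.PoolFrozen.S08023 (Pool/Statements/S08023.lean; the theorem Pool.MP_343cc6_co.main);
-- the grader kernel-checks Pool.Agent.S08023.result against that frozen type. Keep the theorem IN THIS FILE
-- (a `result` declared elsewhere and merely imported here is not credited); helpers may live anywhere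
-- under Pool/Agent/ except Pool/Agent/Results/<P>/, where every file is a hand-in, and Pool/Agent/OnPar/, which the grade drops.

set_option autoImplicit false
open Pool Pool.MP_343cc6_co

namespace Pool.Agent.S08023

/-- For n at least 2, on the cycle of 2n−1 vertices there is a near-perfect matching with all edge lengths distinct, no two edges parallel, and no edge parallel to the uncovered vertex, exactly when n is at least 4 and n is not 5. -/
theorem result :
    ∀ n : ℕ, 2 ≤ n →
      ((∃ (M : SimpleGraph (ZMod (2 * n - 1))) (c : ZMod (2 * n - 1)),
          (∀ w, ¬ M.Adj c w) ∧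
          (∀ v, v ≠ c → ∃! w, M.Adj v w) ∧
          (∀ a b x y, M.Adj a b → M.Adj x y →
            min (a - b).val (b - a).val = min (x - y).val (y - x).val →
            (a = x ∧ b = y) ∨ (a = y ∧ b = x)) ∧
          (∀ a b x y, M.Adj a b → M.Adj x y →
            min (a - x).val (x - a).val = min (b - y).val (y - b).val →
            (a = x ∧ b = y) ∨ (a = y ∧ b = x)) ∧
          (∀ a b, M.Adj a b →
            min (a - c).val (c - a).val ≠ min (b - c).val (c - b).val))
        ↔ (4 ≤ n ∧ n ≠ 5)) := by
  intro n hn
  change Pool.Agent.MP_343cc6_co.Perfect (2 * n - 1) ↔ _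
  constructor
  · intro h
    by_contra hcon
    have : n = 2 ∨ n = 3 ∨ n = 5 := by omega
    rcases this with rfl | rfl | rfl
    · exact Pool.Agent.MP_343cc6_co.not_perfect3 h
    · exact Pool.Agent.MP_343cc6_co.not_perfect5 h
    · exact Pool.Agent.MP_343cc6_co.not_perfect9 h
  · intro h
    exact Pool.Agent.MP_343cc6_co.perfect_all _ (by omega) (by omega) (by omega)

end Pool.Agent.S08023
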