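import Pool.Statements.S08127
import Pool.Agent.MP_38296a_co.Mg.H21_Final

-- Template for statement S08127, which your task lets you prove directly.
-- Copy to Pool/Agent/S08127.lean and replace the sorry. The statement below is byte-identical to the frozen
-- statement Pool.MP_38296a_co.PoolFrozen.S08127 (Pool/Statements/S08127.lean; the theorem Pool.MP_38296a_co.main);
-- the grader kernel-checks Pool.Agent.S08127.result against that frozen type. Keep the theorem IN THIS FILE
-- (a `result` declared elsewhere and merely imported here is not credited); helpers may live anywhere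
-- under Pool/Agent/ except Pool/Agent/Results/<P>/, where every file is a hand-in, and Pool/Agent/OnPar/, which the grade drops.

set_option autoImplicit false
open Pool Pool.MP_38296a_co

namespace Pool.Agent.S08127

/-- Some c>0 works for all k≥3 and δ>0: every large enough n-point planar set with at least δn² collinear triples has a subset of at most k points containing at least ck² collinear triples. -/
theorem result :
    ∃ c : ℝ, 0 < c ∧ ∀ k : ℕ, 3 ≤ k → ∀ δ : ℝ, 0 < δ → ∃ n0 : ℕ, ∀ n : ℕ, n0 ≤ n →
      ∀ P : Finset (EuclideanSpace ℝ (Fin 2)), P.card = n →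
        δ * (n : ℝ) ^ 2 ≤
          (({t : Finset (EuclideanSpace ℝ (Fin 2)) |
              t ⊆ P ∧ t.card = 3 ∧
                Collinear ℝ (t : Set (EuclideanSpace ℝ (Fin 2)))}.ncard : ℕ) : ℝ) →
        ∃ V : Finset (EuclideanSpace ℝ (Fin 2)), V ⊆ P ∧ V.card ≤ k ∧
          c * (k : ℝ) ^ 2 ≤
            (({t : Finset (EuclideanSpace ℝ (Fin 2)) |
                t ⊆ V ∧ t.card = 3 ∧
                  Collinear ℝ (t : Set (EuclideanSpace ℝ (Fin 2)))}.ncard : ℕ) : ℝ) := by
  exact ⟨1 / 144, by norm_num, Pool.Agent.MP_38296a_co.H21.solymosi⟩

end Pool.Agent.S08127
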