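-- Proof of the frozen statement S08910 (negation of the monotonicity of the number of colour schemes).
-- Counterexample: N = 8, s = 2, m = 3, t = 3.  Give the eight points the weights 1,2,2,0,0,0,0,0 in Z/3
-- and colour a pair by the sum of its weights.  Then n(3) = 6 and n(4) = 5.
import Pool.Statements.S08910

set_option autoImplicit false
open Pool Pool.MP_598d99_co

namespace Pool.Agent.S08910

/-- weights of the eight points -/
def wt : Fin 8 → Fin 3 := ![1, 2, 2, 0, 0, 0, 0, 0]

/-- the colour of a subset is the sum of the weights of its points, modulo 3 -/
def col (S : Finset (Fin 8)) : Fin 3 := ∑ i ∈ S, wt i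

theorem card_three :
    (((Finset.univ : Finset (Fin 8)).powersetCard 3).image
      (fun T : Finset (Fin 8) => fun i : Fin 3 =>
        ((T.powersetCard 2).filter (fun S => col S = i)).card)).card = 6 := by
  decide +kernel

theorem card_four :
    (((Finset.univ : Finset (Fin 8)).powersetCard (3 + 1)).image
      (fun T : Finset (Fin 8) => fun i : Fin 3 =>
        ((T.powersetCard 2).filter (fun S => col S = i)).card)).card = 5 := by
  decide +kernel

/-- The negation of the preceding statement: For any colouring of the s-subsets of an N-set with m colours, when s ≤ t and t+1 ≤ N/2, the number of distinct colour-count vectors of t-subsets is at most that of (t+1)-subsets. -/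
theorem result :
    ¬ (∀ (N s m : ℕ) (c : Finset (Fin N) → Fin m) (t : ℕ),
      s ≤ t → 2 * (t + 1) ≤ N →
        (((Finset.univ : Finset (Fin N)).powersetCard t).image
            (fun T : Finset (Fin N) => fun i : Fin m =>
              ((T.powersetCard s).filter (fun S => c S = i)).card)).card
        ≤
        (((Finset.univ : Finset (Fin N)).powersetCard (t + 1)).image
            (fun T : Finset (Fin N) => fun i : Fin m =>
              ((T.powersetCard s).filter (fun S => c S = i)).card)).card) := by
  intro h
  have h1 := h 8 2 3 col 3 (by norm_num) (by norm_num)
  rw [card_three, card_four] at h1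
  omega

end Pool.Agent.S08910
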