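import Pool.Statements.S09991
import Pool.Agent.MP_8b47e7_co.Mg.H99_Main

-- Template for statement S09991, which your task lets you prove directly.
-- Copy to Pool/Agent/S09991.lean and replace the sorry. The statement below is byte-identical to the frozen
-- statement Pool.MP_8b47e7_co.PoolFrozen.S09991 (Pool/Statements/S09991.lean; the theorem Pool.MP_8b47e7_co.main);
-- the grader kernel-checks Pool.Agent.S09991.result against that frozen type. Keep the theorem IN THIS FILE
-- (a `result` declared elsewhere and merely imported here is not credited); helpers may live anywhere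
-- under Pool/Agent/ except Pool/Agent/Results/<P>/, where every file is a hand-in, and Pool/Agent/OnPar/, which the grade drops.

set_option autoImplicit false
open Pool Pool.MP_8b47e7_co

namespace Pool.Agent.S09991

/-- For every constant C there is a finite set of n ≥ 4 points in 3-space, no four on a common plane, whose number of unit-distance pairs exceeds C·n·log n; that is, u₃*(n) is not O(n log n). -/
theorem result :
    ∀ C : ℝ, ∃ P : Finset (EuclideanSpace ℝ (Fin 3)), 4 ≤ P.card ∧
      (∀ S ⊆ P, S.card = 4 → ¬ Coplanar ℝ (S : Set (EuclideanSpace ℝ (Fin 3)))) ∧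
      C * (P.card : ℝ) * Real.log (P.card : ℝ) <
        (({pq : EuclideanSpace ℝ (Fin 3) × EuclideanSpace ℝ (Fin 3) |
            pq.1 ∈ P ∧ pq.2 ∈ P ∧ dist pq.1 pq.2 = 1}.ncard : ℕ) : ℝ) / 2 := by
  exact Pool.Agent.MP_8b47e7_co.H99.main

end Pool.Agent.S09991
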