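import Pool.Statements.S10017
import Pool.Agent.MP_8c1b0d_co.Mg.RI_All
import Pool.Agent.MP_8c1b0d_co.CT4.Main

set_option autoImplicit false
open Pool Pool.MP_8c1b0d_co

namespace Pool.Agent.S10017

/-- For every finite 3-connected cubic graph that embeds in the plane, the prism G × K2 has two Hamilton cycles such that every edge of the prism lies in exactly one of them. -/
theorem result :
    ∀ (V : Type) [Fintype V] [DecidableEq V] (G : SimpleGraph V),
      (∀ v : V, (G.neighborSet v).ncard = 3) →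
      4 ≤ Fintype.card V →
      (∀ S : Finset V, S.card ≤ 2 → (G.induce ((S : Set V)ᶜ)).Connected) →
      (∃ p : V → ℂ, Function.Injective p ∧
        ∃ γ : ∀ u v : V, G.Adj u v → Path (p u) (p v),
          (∀ (u v : V) (h : G.Adj u v), Function.Injective (γ u v h)) ∧
          (∀ (u v : V) (h : G.Adj u v) (t : unitInterval),
              0 < (t : ℝ) → (t : ℝ) < 1 → ∀ w : V, γ u v h t ≠ p w) ∧
          (∀ (u v : V) (h : G.Adj u v) (u' v' : V) (h' : G.Adj u' v')
              (t t' : unitInterval),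
              0 < (t : ℝ) → (t : ℝ) < 1 → 0 < (t' : ℝ) → (t' : ℝ) < 1 →
              γ u v h t = γ u' v' h' t' → Sym2.mk (u, v) = Sym2.mk (u', v'))) →
      ∃ (a b : V × Bool)
        (c₁ : (G.boxProd (⊤ : SimpleGraph Bool)).Walk a a)
        (c₂ : (G.boxProd (⊤ : SimpleGraph Bool)).Walk b b),
        c₁.IsHamiltonianCycle ∧ c₂.IsHamiltonianCycle ∧
        ∀ e ∈ (G.boxProd (⊤ : SimpleGraph Bool)).edgeSet,
          (e ∈ c₁.edges ↔ e ∉ c₂.edges) := by
  exact Pool.Agent.MP_8c1b0d_co.RI.frozen_of Pool.Agent.MP_8c1b0d_co.CT4.four_colour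

end Pool.Agent.S10017
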