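import Pool.Statements.S10469
import Pool.Agent.MP_a09f05_co.Mg.Main

-- Template for statement S10469, which your task lets you prove directly.
-- Copy to Pool/Agent/S10469.lean and replace the sorry. The statement below is byte-identical to the frozen
-- statement Pool.MP_a09f05_co.PoolFrozen.S10469 (Pool/Statements/S10469.lean; the theorem Pool.MP_a09f05_co.main);
-- the grader kernel-checks Pool.Agent.S10469.result against that frozen type. Keep the theorem IN THIS FILE
-- (a `result` declared elsewhere and merely imported here is not credited); helpers may live anywhere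
-- under Pool/Agent/ except Pool/Agent/Results/<P>/, where every file is a hand-in, and Pool/Agent/OnPar/, which the grade drops.

set_option autoImplicit false
open Pool Pool.MP_a09f05_co

namespace Pool.Agent.S10469

/-- For all k≥2, p≥k+1, ε>0, for all sufficiently large n there is an edge-colouring of K_n^{(k)} with ≤ n^ε colours in which every p-subset sees ≥ C(p-1,k-1) colours, i.e. f_k(n,p,C(p-1,k-1)) = n^{o(1)}. -/
theorem result :
    ∀ k : ℕ, 2 ≤ k → ∀ p : ℕ, k + 1 ≤ p → ∀ ε : ℝ, 0 < ε →
      ∃ N : ℕ, ∀ n : ℕ, N ≤ n →
        ∃ c : Finset (Fin n) → ℕ,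
          ((((Finset.univ : Finset (Fin n)).powersetCard k).image c).card : ℝ) ≤ (n : ℝ) ^ ε ∧
          ∀ S : Finset (Fin n), S.card = p →
            (p - 1).choose (k - 1) ≤ ((S.powersetCard k).image c).card := by
  intro k hk p hp ε hε
  obtain ⟨N, hN⟩ := Pool.Agent.MP_a09f05_co.unique_pair_colouring k p ε hε
  refine ⟨N, fun n hn => ?_⟩
  obtain ⟨c, hc, huniq⟩ := hN n hn
  refine ⟨c, hc, fun S hS => ?_⟩
  exact Pool.Agent.MP_a09f05_co.count_colours hk c huniq (p - 1) S (by omega) hS.le

end Pool.Agent.S10469
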