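import Pool.Statements.S10533
import Pool.Agent.MP_a382a5_co.Mg.Lower
import Pool.Agent.MP_a382a5_co.Mg.Construction

-- Template for statement S10533, which your task lets you prove directly.
-- Copy to Pool/Agent/S10533.lean and replace the sorry. The statement below is byte-identical to the frozen
-- statement Pool.MP_a382a5_co.PoolFrozen.S10533 (Pool/Statements/S10533.lean; the theorem Pool.MP_a382a5_co.main);
-- the grader kernel-checks Pool.Agent.S10533.result against that frozen type. Keep the theorem IN THIS FILE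
-- (a `result` declared elsewhere and merely imported here is not credited); helpers may live anywhere
-- under Pool/Agent/ except Pool/Agent/Results/<P>/, where every file is a hand-in, and Pool/Agent/OnPar/, which the grade drops.

set_option autoImplicit false
open Pool Pool.MP_a382a5_co

namespace Pool.Agent.S10533

/-- For every d≥1 and k: if every finite disjoint unit-ball family in dimension d+1 whose (k+1)-subfamilies have line transversals has one, then the same holds in dimension d with k; i.e. the transversal Helly number strictly increases with d. -/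
theorem result :
    ∀ d : ℕ, 1 ≤ d → ∀ k : ℕ,
      (∀ S : Finset (EuclideanSpace ℝ (Fin (d + 1))),
        (∀ x ∈ S, ∀ y ∈ S, x ≠ y → 2 < dist x y) →
        (∀ T ⊆ S, T.card ≤ k + 1 →
          ∃ p v : EuclideanSpace ℝ (Fin (d + 1)), v ≠ 0 ∧
            ∀ c ∈ T, ∃ t : ℝ, dist (p + t • v) c ≤ 1) →
        ∃ p v : EuclideanSpace ℝ (Fin (d + 1)), v ≠ 0 ∧
          ∀ c ∈ S, ∃ t : ℝ, dist (p + t • v) c ≤ 1) →
      (∀ S : Finset (EuclideanSpace ℝ (Fin d)),
        (∀ x ∈ S, ∀ y ∈ S, x ≠ y → 2 < dist x y) →
        (∀ T ⊆ S, T.card ≤ k →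
          ∃ p v : EuclideanSpace ℝ (Fin d), v ≠ 0 ∧
            ∀ c ∈ T, ∃ t : ℝ, dist (p + t • v) c ≤ 1) →
        ∃ p v : EuclideanSpace ℝ (Fin d), v ≠ 0 ∧
          ∀ c ∈ S, ∃ t : ℝ, dist (p + t • v) c ≤ 1) := by
  intro d hd k H S hS hT
  rcases Nat.lt_or_ge d 2 with h2 | h2
  · obtain rfl : d = 1 := by omega
    refine ⟨0, EuclideanSpace.single 0 1, ?_, fun c _ => ⟨c 0, ?_⟩⟩
    · intro h
      have := congrArg (fun x : EuclideanSpace ℝ (Fin 1) => x 0) h
      simp at this
    · have : (0 : EuclideanSpace ℝ (Fin 1)) + c 0 • EuclideanSpace.single 0 1 = c := by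
        ext i
        obtain rfl : i = 0 := Subsingleton.elim _ _
        simp
      rw [this, dist_self]
      exact zero_le_one
  · obtain ⟨m, rfl⟩ : ∃ m, d = m + 1 := ⟨d - 1, by omega⟩
    have hm : 1 ≤ m := by omega
    obtain ⟨U, hU, hUT, hUn⟩ := Pool.Agent.MP_a382a5_co.lower hm
      (EuclideanSpace.basisFun (Fin (m + 2)) ℝ).orthonormal
    have hk : 4 * m + 3 ≤ k := by
      by_contra hk
      refine hUn ((Pool.Agent.MP_a382a5_co.hasT_iff U).mpr (H U hU fun T hTU hTk => ?_))
      exact (Pool.Agent.MP_a382a5_co.hasT_iff T).mp (hUT T hTU (by omega))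
    have hT' : ∀ T ⊆ S, T.card ≤ k → Pool.Agent.MP_a382a5_co.HasT T := fun T a b =>
      (Pool.Agent.MP_a382a5_co.hasT_iff T).mpr (hT T a b)
    refine (Pool.Agent.MP_a382a5_co.hasT_iff S).mp ?_
    rcases Nat.lt_or_ge m 2 with h3 | h3
    · obtain rfl : m = 1 := by omega
      exact Pool.Agent.MP_a382a5_co.upper (k := 1) (m := 6) finrank_euclideanSpace_fin le_rfl
        Pool.Agent.MP_a382a5_co.pack_plane (by omega) (by omega) S hS hT'
    · exact Pool.Agent.MP_a382a5_co.upper (k := m) (m := 9) finrank_euclideanSpace_fin hm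
        Pool.Agent.MP_a382a5_co.pack_nine (by omega) (by omega) S hS hT'

end Pool.Agent.S10533
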