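import Pool.Statements.S10953
import Pool.Agent.MP_b5eafd_co.Mg.Gap
import Pool.Agent.MP_b5eafd_co.Mg.Upper
import Pool.Agent.MP_b5eafd_co.Mg.Lower
import Pool.Agent.MP_b5eafd_co.Mg.Gap1

-- Template for statement S10953, which your task lets you prove directly.
-- Copy to Pool/Agent/S10953.lean and replace the sorry. The statement below is byte-identical to the frozen
-- statement Pool.MP_b5eafd_co.PoolFrozen.S10953 (Pool/Statements/S10953.lean; the theorem Pool.MP_b5eafd_co.main);
-- the grader kernel-checks Pool.Agent.S10953.result against that frozen type. Keep the theorem IN THIS FILE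
-- (a `result` declared elsewhere and merely imported here is not credited); helpers may live anywhere
-- under Pool/Agent/ except Pool/Agent/Results/<P>/, where every file is a hand-in, and Pool/Agent/OnPar/, which the grade drops.

/-
HINTS (uses only the STATEMENTS of Th, Gap, Upper, Lower, Reg).  thetas from exists_star, cstar = sqrt(bet thetas)/2, T from exists_inverse,
delta c = sg (T (4 c^2)) / 2.  c < cstar iff 4c^2 < bet thetas.  Good set = TF minus Bad, ratio = 1 - |Bad|/|TF|, and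
|Bad|/|TF| <= exp(-(gamma - 2 zeta) m) -> 0 with zeta = gamma/4, m n -> infinity (all sets of graphs on Fin n are finite: Set.ncard_diff etc.).
Low: Bad = {G in TF | exists S, (1/2+eps) m < cutG G S} (the other condition always holds by exists_half_cut); upper_count with f = 4c^2/3 + gamma (gap_low,
isKer_block, cutK_block, eS_univ_eq), lower_count with sigma = 0 (hh 0 = 0).
High: theta = T(4c^2); Bad = {G in TF | (exists S, cut > (1/2+delta+eps) m) or (forall S, cut < (1/2+delta-eps) m)}; in the second case take S0 = empty and use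
cutK_block with S = filter (tau v in Sg') for every Sg'; f = fv theta + gamma (gap_high), lower_count with sigma = sg theta and fv_eq.
-/
set_option autoImplicit false
open Filter Topology
open Pool Pool.MP_b5eafd_co

namespace Pool.Agent.S10953

/-- There exist c*>0 and a continuous δ on (c*,∞) with values in (0,1/2] such that a uniform random triangle-free graph with m∼cn^{3/2} edges whp has max cut (1/2+o(1))m when 0<c<c*, and (1/2+δ(c)+o(1))m when c>c*. -/
theorem result :
    ∃ cstar : ℝ, 0 < cstar ∧ ∃ δ : ℝ → ℝ, ContinuousOn δ (Set.Ioi cstar) ∧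
      (∀ c : ℝ, cstar < c → 0 < δ c ∧ δ c ≤ 1 / 2) ∧
      (∀ c : ℝ, 0 < c → c < cstar → ∀ m : ℕ → ℕ,
        Tendsto (fun n : ℕ => (m n : ℝ) / (n : ℝ) ^ ((3 : ℝ) / 2)) atTop (𝓝 c) →
        ∀ ε : ℝ, 0 < ε →
          Tendsto (fun n : ℕ =>
            (({G : SimpleGraph (Fin n) | G.CliqueFree 3 ∧ G.edgeSet.ncard = m n ∧
                (∀ S : Finset (Fin n),
                  (({p : Fin n × Fin n | G.Adj p.1 p.2 ∧ p.1 ∈ S ∧ p.2 ∉ S}.ncard : ℕ) : ℝ)
                    ≤ (1 / 2 + ε) * (m n : ℝ)) ∧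
                (∃ S : Finset (Fin n),
                  (1 / 2 - ε) * (m n : ℝ) ≤
                    (({p : Fin n × Fin n | G.Adj p.1 p.2 ∧ p.1 ∈ S ∧ p.2 ∉ S}.ncard : ℕ) : ℝ))}.ncard
                : ℕ) : ℝ) /
            (({G : SimpleGraph (Fin n) | G.CliqueFree 3 ∧ G.edgeSet.ncard = m n}.ncard : ℕ) : ℝ))
            atTop (𝓝 1)) ∧
      (∀ c : ℝ, cstar < c → ∀ m : ℕ → ℕ,
        Tendsto (fun n : ℕ => (m n : ℝ) / (n : ℝ) ^ ((3 : ℝ) / 2)) atTop (𝓝 c) →
        ∀ ε : ℝ, 0 < ε →
          Tendsto (fun n : ℕ =>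
            (({G : SimpleGraph (Fin n) | G.CliqueFree 3 ∧ G.edgeSet.ncard = m n ∧
                (∀ S : Finset (Fin n),
                  (({p : Fin n × Fin n | G.Adj p.1 p.2 ∧ p.1 ∈ S ∧ p.2 ∉ S}.ncard : ℕ) : ℝ)
                    ≤ (1 / 2 + δ c + ε) * (m n : ℝ)) ∧
                (∃ S : Finset (Fin n),
                  (1 / 2 + δ c - ε) * (m n : ℝ) ≤
                    (({p : Fin n × Fin n | G.Adj p.1 p.2 ∧ p.1 ∈ S ∧ p.2 ∉ S}.ncard : ℕ) : ℝ))}.ncard
                : ℕ) : ℝ) /
            (({G : SimpleGraph (Fin n) | G.CliqueFree 3 ∧ G.edgeSet.ncard = m n}.ncard : ℕ) : ℝ))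
            atTop (𝓝 1)) := by
  obtain ⟨θs, hs⟩ := Pool.Agent.MP_b5eafd_co.exists_star
  have h1 := hs.1
  have hθ0 : 0 < θs := by linarith
  have hb : 0 < Pool.Agent.MP_b5eafd_co.bet θs := hθ0.trans_le (Pool.Agent.MP_b5eafd_co.le_bet hθ0)
  obtain ⟨T, hT, hT'⟩ := Pool.Agent.MP_b5eafd_co.exists_inverse (θs := θs) (by linarith)
  have hsq := Real.sq_sqrt hb.le
  have hs0 := Real.sqrt_pos.2 hb
  have hup : ∀ c : ℝ, Real.sqrt (Pool.Agent.MP_b5eafd_co.bet θs) / 2 < c →
      Pool.Agent.MP_b5eafd_co.bet θs < 4 * c ^ 2 := fun c hc => by nlinarith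
  refine ⟨Real.sqrt (Pool.Agent.MP_b5eafd_co.bet θs) / 2, by positivity,
    fun c => Pool.Agent.MP_b5eafd_co.sg (T (4 * c ^ 2)) / 2, ?_, ?_, ?_, ?_⟩
  · refine ContinuousOn.div_const (Pool.Agent.MP_b5eafd_co.continuous_sg.comp_continuousOn
      (hT.comp (by fun_prop) fun c hc => hup c hc)) 2
  · intro c hc
    have h2 := (hT' _ (hup c hc)).1
    have h3 := Pool.Agent.MP_b5eafd_co.sg_pos (θ := T (4 * c ^ 2)) (by linarith)
    have h4 := Pool.Agent.MP_b5eafd_co.sg_lt_one (T (4 * c ^ 2))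
    constructor <;> linarith
  · intro c hc0 hc m hm ε hε
    exact Pool.Agent.MP_b5eafd_co.gap_final_low hs hc0 (by nlinarith) hm hε
  · intro c hc m hm ε hε
    obtain ⟨h2, h3⟩ := hT' _ (hup c hc)
    exact Pool.Agent.MP_b5eafd_co.gap_final_high hs h2 (by linarith) h3 hm hε

end Pool.Agent.S10953
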