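import Pool.Statements.S11744
import Pool.Agent.MP_d802e4_co.Mg.Final

-- Template for statement S11744, which your task lets you prove directly.
-- Copy to Pool/Agent/S11744.lean and replace the sorry. The statement below is byte-identical to the frozen
-- statement Pool.MP_d802e4_co.PoolFrozen.S11744 (Pool/Statements/S11744.lean; the theorem Pool.MP_d802e4_co.not_main);
-- the grader kernel-checks Pool.Agent.S11744.result against that frozen type. Keep the theorem IN THIS FILE
-- (a `result` declared elsewhere and merely imported here is not credited); helpers may live anywhere
-- under Pool/Agent/ except Pool/Agent/Results/<P>/, where every file is a hand-in, and Pool/Agent/OnPar/, which the grade drops.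

set_option autoImplicit false
open Pool Pool.MP_d802e4_co

namespace Pool.Agent.S11744

/-- The negation of the preceding statement: For every natural number g there is a finite simple graph in which every vertex has exactly 4 neighbours, whose chromatic number is exactly 4, and whose girth is at least g. -/
theorem result :
    ¬ (∀ g : ℕ, ∃ (n : ℕ) (G : SimpleGraph (Fin n)),
      (∀ v : Fin n, (G.neighborSet v).ncard = 4) ∧
      G.chromaticNumber = 4 ∧
      (g : ℕ∞) ≤ G.egirth) := by
  intro h
  obtain ⟨g, hg⟩ := Pool.Agent.MP_d802e4_co.main_thm
  obtain ⟨n, G, h4, hχ, hgirth⟩ := h g
  have hcol : G.Colorable 3 := by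
    refine hg (Fin n) G (fun v => ?_) hgirth
    rw [← h4 v, ← Set.ncard_coe_finset]
    congr 1
    ext w
    simp [Pool.Agent.MP_d802e4_co.mem_nb]
  have := hcol.chromaticNumber_le
  rw [hχ] at this
  exact absurd this (by decide)

end Pool.Agent.S11744
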