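import Pool.Statements.S12973
import Pool.Agent.MP_2fe25f_gt.Mg.Game

-- Template for statement S12973, which your task lets you prove directly.
-- Copy to Pool/Agent/S12973.lean and replace the sorry. The statement below is byte-identical to the frozen
-- statement Pool.MP_2fe25f_gt.PoolFrozen.S12973 (Pool/Statements/S12973.lean; the theorem Pool.MP_2fe25f_gt.main);
-- the grader kernel-checks Pool.Agent.S12973.result against that frozen type. Keep the theorem IN THIS FILE
-- (a `result` declared elsewhere and merely imported here is not credited); helpers may live anywhere
-- under Pool/Agent/ except Pool/Agent/Results/<P>/, where every file is a hand-in, and Pool/Agent/OnPar/, which the grade drops.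

set_option autoImplicit false
open Pool Pool.MP_2fe25f_gt

namespace Pool.Agent.S12973

/-- In every compact connected metric space with no infinite family of pairwise disjoint subcontinua of diameter above a fixed ε>0, any two distinct points of a connected Borel subset C are joined by an arc inside C. -/
theorem result :
    ∀ (X : Type) [MetricSpace X] [CompactSpace X] [ConnectedSpace X],
      (∀ ε : ℝ, 0 < ε →
        ¬ ∃ f : ℕ → Set X,
          (∀ n, IsCompact (f n) ∧ IsConnected (f n) ∧ ε < Metric.diam (f n)) ∧
          Pairwise (fun i j => Disjoint (f i) (f j))) →
      ∀ C : Set X, IsPreconnected C → @MeasurableSet X (borel X) C →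
        ∀ x ∈ C, ∀ y ∈ C, x ≠ y →
          ∃ γ : unitInterval → X, Continuous γ ∧ Function.Injective γ ∧
            γ 0 = x ∧ γ 1 = y ∧ Set.range γ ⊆ C := by
  intro X _ _ _ h C hC hB x hx y hy hxy
  exact (Pool.Agent.MP_2fe25f_gt.fs_of h).borel_arc hC hB hx hy hxy

end Pool.Agent.S12973
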