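import Pool.Statements.S13466
import Pool.Agent.MP_812062_gt.Mg.Graph

-- Template for statement S13466, which your task lets you prove directly.
-- Copy to Pool/Agent/S13466.lean and replace the sorry. The statement below is byte-identical to the frozen
-- statement Pool.MP_812062_gt.PoolFrozen.S13466 (Pool/Statements/S13466.lean; the theorem Pool.MP_812062_gt.not_main);
-- the grader kernel-checks Pool.Agent.S13466.result against that frozen type. Keep the theorem IN THIS FILE
-- (a `result` declared elsewhere and merely imported here is not credited); helpers may live anywhere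
-- under Pool/Agent/ except Pool/Agent/Results/<P>/, where every file is a hand-in, and Pool/Agent/OnPar/, which the grade drops.

set_option autoImplicit false
open Pool Pool.MP_812062_gt

namespace Pool.Agent.S13466

/-- The negation of the preceding statement: For every connected metric space X, the span (sup over connected Z in X×X with equal projections of the min distance between coordinates) is at most twice the surjective span (same, with both projections onto X). -/
theorem result :
    ¬ (∀ (X : Type) [MetricSpace X] [ConnectedSpace X],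
      (⨆ (Z : Set (X × X)) (_ : IsConnected Z) (_ : Prod.fst '' Z = Prod.snd '' Z),
          ⨅ p ∈ Z, edist p.1 p.2)
        ≤ 2 * ⨆ (Z : Set (X × X)) (_ : IsConnected Z)
            (_ : Prod.fst '' Z = Set.univ ∧ Prod.snd '' Z = Set.univ),
            ⨅ p ∈ Z, edist p.1 p.2) := by
  intro h
  obtain ⟨X, m, _, c, ⟨Z, hZ, hp, h3⟩, h1⟩ := Pool.Agent.MP_812062_gt.exists_graph
  have key := h X
  have lo : (3 : ENNReal) ≤ ⨆ (Z : Set (X × X)) (_ : IsConnected Z)
      (_ : Prod.fst '' Z = Prod.snd '' Z), ⨅ p ∈ Z, edist p.1 p.2 := by
    refine le_iSup_of_le Z (le_iSup_of_le hZ (le_iSup_of_le hp ?_))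
    refine le_iInf₂ fun p hp => ?_
    rw [edist_dist]
    have := ENNReal.ofReal_le_ofReal (h3 p hp)
    simpa using this
  have up : (⨆ (Z : Set (X × X)) (_ : IsConnected Z)
      (_ : Prod.fst '' Z = Set.univ ∧ Prod.snd '' Z = Set.univ),
      ⨅ p ∈ Z, edist p.1 p.2) ≤ 1 := by
    refine iSup_le fun Z => iSup_le fun hZ => iSup_le fun hs => ?_
    obtain ⟨p, hp, hd⟩ := h1 Z hZ hs.1
    refine iInf₂_le_of_le p hp ?_
    rw [edist_dist]
    exact ENNReal.ofReal_le_one.2 hd
  have fin : (3 : ENNReal) ≤ 2 * 1 := lo.trans (key.trans (mul_le_mul_right up 2))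
  norm_num at fin

end Pool.Agent.S13466
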