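import Pool.Statements.S13483
import Pool.Agent.MP_85210c_gt.Mg.Volume

-- Template for statement S13483, which your task lets you prove directly.
-- Copy to Pool/Agent/S13483.lean and replace the sorry. The statement below is byte-identical to the frozen
-- statement Pool.MP_85210c_gt.PoolFrozen.S13483 (Pool/Statements/S13483.lean; the theorem Pool.MP_85210c_gt.main);
-- the grader kernel-checks Pool.Agent.S13483.result against that frozen type. Keep the theorem IN THIS FILE
-- (a `result` declared elsewhere and merely imported here is not credited); helpers may live anywhere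
-- under Pool/Agent/ except Pool/Agent/Results/<P>/, where every file is a hand-in, and Pool/Agent/OnPar/, which the grade drops.

set_option autoImplicit false
open Pool Pool.MP_85210c_gt

namespace Pool.Agent.S13483

/-- For 1<p<2 and any n linearly independent functions in L_p[0,1], the unit ball of their span (in coordinates) has volume times polar volume at least that of the l_p^n unit ball. -/
theorem result :
  ∀ (n : ℕ) (p : ℝ), 1 < p → p < 2 →
  ∀ f : Fin n → MeasureTheory.Lp ℝ (ENNReal.ofReal p)
      ((MeasureTheory.volume : MeasureTheory.Measure ℝ).restrict (Set.Icc (0:ℝ) 1)),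
  LinearIndependent ℝ f →
  MeasureTheory.volume {x : Fin n → ℝ | ∑ i, |x i| ^ p ≤ 1} *
    MeasureTheory.volume {y : Fin n → ℝ | ∀ x : Fin n → ℝ,
      ∑ i, |x i| ^ p ≤ 1 → ∑ i, x i * y i ≤ 1}
  ≤ MeasureTheory.volume {x : Fin n → ℝ | ‖∑ i, x i • f i‖ ≤ 1} *
    MeasureTheory.volume {y : Fin n → ℝ | ∀ x : Fin n → ℝ,
      ‖∑ i, x i • f i‖ ≤ 1 → ∑ i, x i * y i ≤ 1} := by
  intro n p h1 h2 f hf
  exact (Pool.Agent.MP85210c.reference_le n h1).trans (Pool.Agent.MP85210c.mahler_Lp h1 h2 f hf)

end Pool.Agent.S13483
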