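import Pool.Statements.S13624
import Pool.Agent.MP_9873d2_gt.Mg.NotK

-- Template for statement S13624, which your task lets you prove directly.
-- Copy to Pool/Agent/S13624.lean and replace the sorry. The statement below is byte-identical to the frozen
-- statement Pool.MP_9873d2_gt.PoolFrozen.S13624 (Pool/Statements/S13624.lean; the theorem Pool.MP_9873d2_gt.not_main);
-- the grader kernel-checks Pool.Agent.S13624.result against that frozen type. Keep the theorem IN THIS FILE
-- (a `result` declared elsewhere and merely imported here is not credited); helpers may live anywhere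
-- under Pool/Agent/ except Pool/Agent/Results/<P>/, where every file is a hand-in, and Pool/Agent/OnPar/, which the grade drops.

set_option autoImplicit false
open Pool Pool.MP_9873d2_gt

namespace Pool.Agent.S13624

/-- The negation of the preceding statement: Let X be a Tychonoff space whose pointwise function space C_p(X) is uniformly homeomorphic to C_p(ℝ). Then X is a k_ω-space: a countable union of compact sets whose traces determine which sets are closed. -/
theorem result :
    ¬ (∀ (X : Type) [TopologicalSpace X] [T35Space X],
      Nonempty (UniformEquiv {g : X → ℝ // Continuous g} {g : ℝ → ℝ // Continuous g}) →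
      ∃ K : ℕ → Set X, (∀ n, IsCompact (K n)) ∧ (⋃ n, K n) = Set.univ ∧
        ∀ F : Set X, (∀ n, IsClosed ((Subtype.val : ↥(K n) → X) ⁻¹' F)) → IsClosed F) := by
  intro h
  obtain ⟨K, hK, -, hdet⟩ := h (ℝ ⊕ Pool.Agent.MP_9873d2_gt.Zs) Pool.Agent.MP_9873d2_gt.uequiv
  exact Pool.Agent.MP_9873d2_gt.not_isClosed_isoSet
    (hdet _ fun n => Pool.Agent.MP_9873d2_gt.isClosed_trace (hK n))

end Pool.Agent.S13624
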