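import Pool.Statements.S13705
import Pool.Agent.MP_a58584_gt.Mg.Main

-- Template for statement S13705, which your task lets you prove directly.
-- Copy to Pool/Agent/S13705.lean and replace the sorry. The statement below is byte-identical to the frozen
-- statement Pool.MP_a58584_gt.PoolFrozen.S13705 (Pool/Statements/S13705.lean; the theorem Pool.MP_a58584_gt.main);
-- the grader kernel-checks Pool.Agent.S13705.result against that frozen type. Keep the theorem IN THIS FILE
-- (a `result` declared elsewhere and merely imported here is not credited); helpers may live anywhere
-- under Pool/Agent/ except Pool/Agent/Results/<P>/, where every file is a hand-in, and Pool/Agent/OnPar/, which the grade drops.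

set_option autoImplicit false
open Pool Pool.MP_a58584_gt

namespace Pool.Agent.S13705

/-- Every non-metrizable Tychonoff space X that is t-embedded (has a pointwise-continuous extender of continuous real functions) in every Tychonoff space containing it as a closed subspace contains a copy of the Cantor cube {0,1}^ω₁. -/
theorem result :
    ∀ (X : Type) [TopologicalSpace X] [T35Space X],
      (∀ (Z : Type) [TopologicalSpace Z] [T35Space Z] (e : X → Z),
        Topology.IsClosedEmbedding e →
        ∃ φ : {f : X → ℝ // Continuous f} → {g : Z → ℝ // Continuous g},
          Continuous φ ∧ ∀ (f : {f : X → ℝ // Continuous f}) (x : X), (φ f).1 (e x) = f.1 x) →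
      ¬ TopologicalSpace.MetrizableSpace X →
      ∀ (I : Type), Cardinal.mk I = Cardinal.aleph 1 →
        ∃ h : (I → Bool) → X, Topology.IsEmbedding h := by
  intro X _ _ H hm I hI
  obtain ⟨h, hh⟩ := Pool.Agent.MP_a58584_gt.exists_cube H hm I hI
  let b : Bool → unitInterval := fun t => if t then 1 else 0
  have hb : Function.Injective b := by
    intro s t hst
    cases s <;> cases t <;> simp [b] at hst ⊢
  let e : (I → Bool) → I → unitInterval := fun s i => b (s i)
  have he : Continuous e :=
    continuous_pi fun i => (continuous_of_discreteTopology (f := b)).comp (continuous_apply i)
  have hinj : Function.Injective e := fun s t hst => funext fun i => hb (congrFun hst i)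
  exact ⟨h ∘ e, hh.comp (he.isClosedEmbedding hinj).isEmbedding⟩

end Pool.Agent.S13705
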