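import Pool.Statements.S14249
import Pool.Agent.MP_f74662_gt.Mg.Final

-- Template for statement S14249, which your task lets you prove directly.
-- Copy to Pool/Agent/S14249.lean and replace the sorry. The statement below is byte-identical to the frozen
-- statement Pool.MP_f74662_gt.PoolFrozen.S14249 (Pool/Statements/S14249.lean; the theorem Pool.MP_f74662_gt.main);
-- the grader kernel-checks Pool.Agent.S14249.result against that frozen type. Keep the theorem IN THIS FILE
-- (a `result` declared elsewhere and merely imported here is not credited); helpers may live anywhere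
-- under Pool/Agent/ except Pool/Agent/Results/<P>/, where every file is a hand-in, and Pool/Agent/OnPar/, which the grade drops.

set_option autoImplicit false
open Pool Pool.MP_f74662_gt

namespace Pool.Agent.S14249

/-- For every N>1 there are sets of reals A,B,C,A_1..A_N with A p B p C and A p A_1 p ... p A_N p C. Here E<F means E embeds homeomorphically in F but not conversely, and E p F means E<F with nothing strictly between. -/
theorem result :
    ∀ Lt : Set ℝ → Set ℝ → Prop,
      (∀ E F : Set ℝ, Lt E F ↔
        ((∃ f : ↥E → ↥F, Topology.IsEmbedding f) ∧ ¬ ∃ g : ↥F → ↥E, Topology.IsEmbedding g)) →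
    ∀ P : Set ℝ → Set ℝ → Prop,
      (∀ E F : Set ℝ, P E F ↔ (Lt E F ∧ ¬ ∃ G : Set ℝ, Lt E G ∧ Lt G F)) →
    ∀ N : ℕ, 1 < N →
      ∃ A B C : Set ℝ, ∃ X : ℕ → Set ℝ,
        P A B ∧ P B C ∧ P A (X 1) ∧
        (∀ i : ℕ, 1 ≤ i → i < N → P (X i) (X (i + 1))) ∧
        P (X N) C := by
  intro Lt hLt P hP N hN
  obtain ⟨e, he⟩ := MP_f74662_gt.exists_emb
  obtain ⟨A, B, C, X, h1, h2, h3, h4, h5⟩ := MP_f74662_gt.config N hN.le
  have key : ∀ U V, MP_f74662_gt.Cov U V → P (e '' U) (e '' V) := by
    intro U V h
    rw [hP]
    simp only [hLt]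
    exact MP_f74662_gt.transfer he h
  exact ⟨e '' A, e '' B, e '' C, fun i => e '' X i, key _ _ h1, key _ _ h2, key _ _ h3,
    fun i hi hi' => key _ _ (h4 i hi hi'), key _ _ h5⟩

end Pool.Agent.S14249
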