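import Pool.Statements.S14809
import Pool.Agent.MP_650f93_lc.Main

set_option autoImplicit false
open Pool Pool.MP_650f93_lc

namespace Pool.Agent.S14809

/-- For any choice of the iterated Fréchet filters Fr_α and any countable α ≥ 1, if an increasing sequence of countable Borel equivalence relations on a standard Borel space are all Fr_α-amenable, then their union is Fr_α-amenable. -/
theorem result :
  ∀ Fr : Ordinal.{0} → Filter ℕ,
    Fr 1 = Filter.cofinite →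
    (∀ β : Ordinal.{0}, 1 ≤ β → β.card ≤ Cardinal.aleph0 →
      ∀ A : Set ℕ, A ∈ Fr (β + 1) ↔
        {m : ℕ | {n : ℕ | Nat.pair m n ∈ A} ∈ Fr β} ∈ Filter.cofinite) →
    (∀ l : Ordinal.{0}, Order.IsSuccLimit l → l.card ≤ Cardinal.aleph0 →
      ∃ s : ℕ → Ordinal.{0}, StrictMono s ∧ (∀ k, 1 ≤ s k) ∧ (⨆ k, s k) = l ∧
        ∀ A : Set ℕ, A ∈ Fr l ↔
          {m : ℕ | {n : ℕ | Nat.pair m n ∈ A} ∈ Fr (s m)} ∈ Filter.cofinite) →
    ∀ α : Ordinal.{0}, 1 ≤ α → α.card ≤ Cardinal.aleph0 →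
    ∀ (X : Type) [MeasurableSpace X] [StandardBorelSpace X] (E : ℕ → X → X → Prop),
      (∀ i, Equivalence (E i)) →
      (∀ i, MeasurableSet {p : X × X | E i p.1 p.2}) →
      (∀ i x, Set.Countable {y : X | E i x y}) →
      (∀ i x y, E i x y → E (i + 1) x y) →
      (∀ i, ∃ f : ℕ → X × X → ℝ, (∀ n, Measurable (f n)) ∧ (∀ n p, 0 ≤ f n p) ∧
        (∀ n x, HasSum (fun y : {y : X // E i x y} => f n (x, y.1)) 1) ∧
        (∀ x y, E i x y → Filter.Tendsto
          (fun n => ∑' z : {z : X // E i x z}, |f n (x, z.1) - f n (y, z.1)|)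
          (Fr α) (nhds 0))) →
      ∃ f : ℕ → X × X → ℝ, (∀ n, Measurable (f n)) ∧ (∀ n p, 0 ≤ f n p) ∧
        (∀ n x, HasSum (fun y : {y : X // ∃ i, E i x y} => f n (x, y.1)) 1) ∧
        (∀ x y, (∃ i, E i x y) → Filter.Tendsto
          (fun n => ∑' z : {z : X // ∃ i, E i x z}, |f n (x, z.1) - f n (y, z.1)|)
          (Fr α) (nhds 0)) := by
  intro Fr h1 h2 h3 α hα hc X _ _ E hE hEm hEc hEs hf
  exact Pool.Agent.MP_650f93_lc.main Fr h1 h2 h3 α hα hc E hE hEm hEc hEs hf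

end Pool.Agent.S14809
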