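import Pool.Statements.S15115
import Pool.Agent.MP_9d4e03_lc.Mg.H37Game

-- Template for statement S15115, which your task lets you prove directly.
-- Copy to Pool/Agent/S15115.lean and replace the sorry. The statement below is byte-identical to the frozen
-- statement Pool.MP_9d4e03_lc.PoolFrozen.S15115 (Pool/Statements/S15115.lean; the theorem Pool.MP_9d4e03_lc.main);
-- the grader kernel-checks Pool.Agent.S15115.result against that frozen type. Keep the theorem IN THIS FILE
-- (a `result` declared elsewhere and merely imported here is not credited); helpers may live anywhere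
-- under Pool/Agent/ except Pool/Agent/Results/<P>/, where every file is a hand-in, and Pool/Agent/OnPar/, which the grade drops.

set_option autoImplicit false
open Pool Pool.MP_9d4e03_lc

namespace Pool.Agent.S15115

/-- There is c < 2 such that on every metric space, from every initial 2-server configuration, some randomized online algorithm has expected cost at most c times the optimal offline cost plus a constant, on every request sequence fixed in advance. -/
theorem result :
  ∃ c : NNReal, c < 2 ∧
  ∀ (M : Type) [MetricSpace M] (init : M × M),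
  ∃ (Ω : Type) (m : MeasurableSpace Ω) (μ : MeasureTheory.Measure Ω)
    (A : Ω → List M → M × M) (α : NNReal),
    MeasureTheory.IsProbabilityMeasure μ ∧
    (∀ ω, A ω [] = init) ∧
    (∀ ω (l : List M) (r : M), (A ω (l ++ [r])).1 = r ∨ (A ω (l ++ [r])).2 = r) ∧
    (∀ σ : List M, Measurable (fun ω => ∑ i ∈ Finset.range σ.length,
        (edist (A ω (σ.take i)).1 (A ω (σ.take (i+1))).1
          + edist (A ω (σ.take i)).2 (A ω (σ.take (i+1))).2))) ∧
    ∀ σ : List M,
      (∫⁻ ω, (∑ i ∈ Finset.range σ.length,
          (edist (A ω (σ.take i)).1 (A ω (σ.take (i+1))).1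
            + edist (A ω (σ.take i)).2 (A ω (σ.take (i+1))).2)) ∂μ)
        ≤ (c : ENNReal) *
            (⨅ (s : ℕ → M × M)
               (_ : s 0 = init ∧ ∀ i < σ.length,
                    σ[i]? = some (s (i+1)).1 ∨ σ[i]? = some (s (i+1)).2),
               ∑ i ∈ Finset.range σ.length,
                 (edist (s i).1 (s (i+1)).1 + edist (s i).2 (s (i+1)).2))
          + (α : ENNReal) := by
  obtain ⟨c, hc⟩ : ∃ c : NNReal, (c : ℝ) = 2 - 1 / 10 ^ 8 := ⟨⟨_, by norm_num⟩, rfl⟩
  have c0 : (c : ENNReal) ≠ 0 := by
    rw [Ne, ENNReal.coe_eq_zero, ← NNReal.coe_eq_zero, hc]; norm_num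
  refine ⟨c, by rw [← NNReal.coe_lt_coe, hc]; norm_num,
    fun M _ init => ⟨ℝ, inferInstance, MeasureTheory.volume.restrict (Set.Ico 0 1),
      TwoSrv.alg init, ((TwoSrv.init0 init).Phi init).toNNReal, ⟨by simp⟩, fun _ => rfl,
      TwoSrv.alg_serve init, fun σ => ?_, fun σ => ?_⟩⟩
  · rw [TwoSrv.alg_cost]; exact TwoSrv.alg_meas init σ
  · rw [TwoSrv.alg_cost, TwoSrv.alg_int,
      ENNReal.mul_iInf_of_ne c0 ENNReal.coe_ne_top, ENNReal.iInf_add]
    refine le_iInf fun x => ?_
    rw [ENNReal.mul_iInf_of_ne c0 ENNReal.coe_ne_top, ENNReal.iInf_add]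
    refine le_iInf fun h => ?_
    have k := TwoSrv.compet σ (TwoSrv.init0 init) x h.2
    have n : 0 ≤ ∑ i ∈ Finset.range σ.length, TwoSrv.mv (x i) (x (i + 1)) :=
      Finset.sum_nonneg fun _ _ => TwoSrv.mv_nonneg _ _
    rw [h.1, ← hc] at k
    rw [TwoSrv.sum_edist, ← ENNReal.ofReal_coe_nnreal, ← ENNReal.ofReal_mul (NNReal.coe_nonneg _)]
    refine (ENNReal.ofReal_le_ofReal (k.trans (add_comm _ _).le)).trans ?_
    exact ENNReal.ofReal_add_le

end Pool.Agent.S15115
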