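import Pool.Statements.S15452
import Pool.Agent.MP_d9ba76_lc.PartC

set_option autoImplicit false
open Pool Pool.MP_d9ba76_lc

namespace Pool.Agent.S15452

/-- The negation of the preceding statement: There is a uniformly c.e.-in-X operator W, preserving Turing equivalence, such that for every set X, X is strictly Turing below W^X and W^X is strictly below the jump X′ (some X-c.e. set is not computable from W^X). -/
theorem result :
    ¬ (∃ R : ℕ × List Bool → Prop, REPred R ∧
      (∀ X Y : Set ℕ,
        TuringReducible (fun n => Part.some (Set.indicator X (fun _ => (1:ℕ)) n))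
          (fun n => Part.some (Set.indicator Y (fun _ => (1:ℕ)) n)) →
        TuringReducible (fun n => Part.some (Set.indicator Y (fun _ => (1:ℕ)) n))
          (fun n => Part.some (Set.indicator X (fun _ => (1:ℕ)) n)) →
        (TuringReducible
          (fun n => Part.some (Set.indicator
            {m : ℕ | ∃ l : List Bool, R (m, l) ∧ ∀ i < l.length, (l.getD i false = true ↔ i ∈ X)}
            (fun _ => (1:ℕ)) n))
          (fun n => Part.some (Set.indicator
            {m : ℕ | ∃ l : List Bool, R (m, l) ∧ ∀ i < l.length, (l.getD i false = true ↔ i ∈ Y)}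
            (fun _ => (1:ℕ)) n)) ∧
         TuringReducible
          (fun n => Part.some (Set.indicator
            {m : ℕ | ∃ l : List Bool, R (m, l) ∧ ∀ i < l.length, (l.getD i false = true ↔ i ∈ Y)}
            (fun _ => (1:ℕ)) n))
          (fun n => Part.some (Set.indicator
            {m : ℕ | ∃ l : List Bool, R (m, l) ∧ ∀ i < l.length, (l.getD i false = true ↔ i ∈ X)}
            (fun _ => (1:ℕ)) n)))) ∧
      (∀ X : Set ℕ,
        TuringReducible (fun n => Part.some (Set.indicator X (fun _ => (1:ℕ)) n))
          (fun n => Part.some (Set.indicator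
            {m : ℕ | ∃ l : List Bool, R (m, l) ∧ ∀ i < l.length, (l.getD i false = true ↔ i ∈ X)}
            (fun _ => (1:ℕ)) n)) ∧
        ¬ TuringReducible
          (fun n => Part.some (Set.indicator
            {m : ℕ | ∃ l : List Bool, R (m, l) ∧ ∀ i < l.length, (l.getD i false = true ↔ i ∈ X)}
            (fun _ => (1:ℕ)) n))
          (fun n => Part.some (Set.indicator X (fun _ => (1:ℕ)) n)) ∧
        ∃ S : ℕ × List Bool → Prop, REPred S ∧
          ¬ TuringReducible
            (fun n => Part.some (Set.indicator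
              {m : ℕ | ∃ l : List Bool, S (m, l) ∧ ∀ i < l.length, (l.getD i false = true ↔ i ∈ X)}
              (fun _ => (1:ℕ)) n))
            (fun n => Part.some (Set.indicator
              {m : ℕ | ∃ l : List Bool, R (m, l) ∧ ∀ i < l.length, (l.getD i false = true ↔ i ∈ X)}
              (fun _ => (1:ℕ)) n)))) := by
  rintro ⟨R, hR, hinv, h⟩
  have conv : ∀ S : ℕ × List Bool → Prop, REPred S → ∃ q, PrimrecPred q ∧ ∀ X : Set ℕ,
      {m : ℕ | ∃ l : List Bool, S (m, l) ∧ ∀ i < l.length, (l.getD i false = true ↔ i ∈ X)}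
        = Pool.Agent.MP_d9ba76_lc.Wf q X := by
    intro S hS
    obtain ⟨q, hq, e⟩ := Pool.Agent.MP_d9ba76_lc.ce_of_re hS
    refine ⟨q, hq, fun X => Set.ext fun m => ?_⟩
    simp only [Pool.Agent.MP_d9ba76_lc.Wf, Pool.Agent.MP_d9ba76_lc.Pre, Set.mem_ofPred_eq, e,
      exists_and_right]
  obtain ⟨q, hq, e⟩ := conv R hR
  simp only [e] at hinv h
  obtain ⟨X, hX⟩ := Pool.Agent.MP_d9ba76_lc.main hq (fun X Y h1 h2 => (hinv X Y h1 h2).1)
    (fun X => (h X).2.1)
  obtain ⟨h1, -, S, hS, h2⟩ := h X
  obtain ⟨r, hr, e'⟩ := conv S hS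
  rw [e'] at h2
  exact h2 (hX h1 r hr)

end Pool.Agent.S15452
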