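import Pool.Statements.S15779
import Pool.Agent.MP_b591f0_mp.Mg.XY_X2

-- Template for statement S15779, which your task lets you prove directly.
-- Copy to Pool/Agent/S15779.lean and replace the sorry. The statement below is byte-identical to the frozen
-- statement Pool.MP_b591f0_mp.PoolFrozen.S15779 (Pool/Statements/S15779.lean; the theorem Pool.MP_b591f0_mp.main);
-- the grader kernel-checks Pool.Agent.S15779.result against that frozen type. Keep the theorem IN THIS FILE
-- (a `result` declared elsewhere and merely imported here is not credited); helpers may live anywhere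
-- under Pool/Agent/ except Pool/Agent/Results/<P>/, where every file is a hand-in, and Pool/Agent/OnPar/, which the grade drops.

set_option autoImplicit false
open MeasureTheory
open Pool Pool.MP_b591f0_mp

namespace Pool.Agent.S15779

/-- For every inverse temperature β>0 there is exactly one probability measure on angle configurations of ℤ² satisfying the DLR equations of the nearest-neighbour plane rotator model with weight exp(β Σ cos(θx−θy)). -/
theorem result :
  ∀ β : ℝ, 0 < β →
  ∃! μ : Measure (ℤ × ℤ → ℝ), IsProbabilityMeasure μ ∧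
    ∀ Λ : Finset (ℤ × ℤ), ∀ f : (ℤ × ℤ → ℝ) → ℝ, Measurable f → (∃ C : ℝ, ∀ ω, |f ω| ≤ C) →
      ∫ ω, f ω ∂μ =
        ∫ ω,
          (∫ (σ : Λ → ℝ),
              f (fun x => if h : x ∈ Λ then σ ⟨x, h⟩ else ω x) *
                Real.exp (β * ∑ e ∈ ({((1 : ℤ), (0 : ℤ)), ((0 : ℤ), (1 : ℤ))} : Finset (ℤ × ℤ)),
                  ∑ x ∈ Λ ∪ Λ.image (fun y => y - e),
                    Real.cos ((fun z => if h : z ∈ Λ then σ ⟨z, h⟩ else ω z) x -
                      (fun z => if h : z ∈ Λ then σ ⟨z, h⟩ else ω z) (x + e)))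
            ∂(Measure.pi fun _ : Λ => (volume : Measure ℝ).restrict (Set.Icc 0 (2 * Real.pi)))) /
          (∫ (σ : Λ → ℝ),
              Real.exp (β * ∑ e ∈ ({((1 : ℤ), (0 : ℤ)), ((0 : ℤ), (1 : ℤ))} : Finset (ℤ × ℤ)),
                  ∑ x ∈ Λ ∪ Λ.image (fun y => y - e),
                    Real.cos ((fun z => if h : z ∈ Λ then σ ⟨z, h⟩ else ω z) x -
                      (fun z => if h : z ∈ Λ then σ ⟨z, h⟩ else ω z) (x + e)))
            ∂(Measure.pi fun _ : Λ => (volume : Measure ℝ).restrict (Set.Icc 0 (2 * Real.pi))))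
        ∂μ := by
  intro β hβ
  obtain ⟨μ, hμ⟩ := Pool.Agent.MP_b591f0_mp.exists_gibbs β
  exact ⟨μ, hμ, fun μ' h' => Pool.Agent.MP_b591f0_mp.uniq hβ h' hμ⟩

end Pool.Agent.S15779
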