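import Pool.Statements.S15796
import Pool.Agent.MP_cba161_mp.Mg.Config

-- Template for statement S15796, which your task lets you prove directly.
-- Copy to Pool/Agent/S15796.lean and replace the sorry. The statement below is byte-identical to the frozen
-- statement Pool.MP_cba161_mp.PoolFrozen.S15796 (Pool/Statements/S15796.lean; the theorem Pool.MP_cba161_mp.not_main);
-- the grader kernel-checks Pool.Agent.S15796.result against that frozen type. Keep the theorem IN THIS FILE
-- (a `result` declared elsewhere and merely imported here is not credited); helpers may live anywhere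
-- under Pool/Agent/ except Pool/Agent/Results/<P>/, where every file is a hand-in, and Pool/Agent/OnPar/, which the grade drops.

set_option autoImplicit false
open Pool Pool.MP_cba161_mp

namespace Pool.Agent.S15796

/-- The negation of the preceding statement: For any molecule with positive nuclear charges summing to at least the electron number N, the fermionic electronic ground-state energy (nuclear repulsion excluded) with nuclei at l·R is non-decreasing in the dilation factor l > 0. -/
theorem result :
    ¬ (∀ (K N : ℕ) (z : Fin K → ℝ) (R : Fin K → EuclideanSpace ℝ (Fin 3)),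
    (∀ j, 0 < z j) → Function.Injective R → (N : ℝ) ≤ ∑ j, z j →
    ∀ e : ℝ → ℝ,
      (∀ l : ℝ, e l = sInf {E : ℝ | ∃ ψ : (Fin N → EuclideanSpace ℝ (Fin 3)) → (Fin N → Fin 2) → ℂ,
          (∀ σ : Fin N → Fin 2, ContDiff ℝ (⊤ : ℕ∞) (fun y => ψ y σ)) ∧
          (∀ σ : Fin N → Fin 2, HasCompactSupport (fun y => ψ y σ)) ∧
          (∀ π : Equiv.Perm (Fin N), ∀ x σ,
              ψ (fun i => x (π i)) (fun i => σ (π i)) = ((Equiv.Perm.sign π : ℤ) : ℂ) * ψ x σ) ∧
          (∑ σ : Fin N → Fin 2, ∫ x, ‖ψ x σ‖ ^ 2) = 1 ∧
          E = ∑ σ : Fin N → Fin 2, ∫ x,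
              ((∑ i, ∑ k : Fin 3,
                  ‖fderiv ℝ (fun y => ψ y σ) x
                      (Pi.single i (EuclideanSpace.single k (1 : ℝ)))‖ ^ 2)
                + (∑ i, ∑ i' ∈ Finset.Ioi i, 1 / dist (x i) (x i')
                    - ∑ i, ∑ j, z j / dist (x i) (l • R j)) * ‖ψ x σ‖ ^ 2)}) →
      MonotoneOn e (Set.Ioi 0)) := by
  intro H
  have hM : ((200000000 : ℕ) : ℝ) = 2 * 10 ^ 8 := by norm_num
  generalize (200000000 : ℕ) = M at hM
  refine Pool.Agent.MP_cba161_mp.not_monotone M hM ?_
  refine H (M + 2) 2 (fun j => Pool.Agent.MP_cba161_mp.ww j)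
    (fun j => Pool.Agent.MP_cba161_mp.tt j • Pool.Agent.MP_cba161_mp.e0)
    (fun j => Pool.Agent.MP_cba161_mp.ww_pos j) (Pool.Agent.MP_cba161_mp.RR_injective M) ?_ _
    (fun l => rfl)
  rw [Pool.Agent.MP_cba161_mp.sum_ww, hM]
  norm_num

end Pool.Agent.S15796
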