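import Pool.Statements.S15859
import Pool.Agent.MP_024ca5_nt.Mg.Bridge

-- Template for statement S15859, which your task lets you prove directly.
-- Copy to Pool/Agent/S15859.lean and replace the sorry. The statement below is byte-identical to the frozen
-- statement Pool.MP_024ca5_nt.PoolFrozen.S15859 (Pool/Statements/S15859.lean; the theorem Pool.MP_024ca5_nt.main);
-- the grader kernel-checks Pool.Agent.S15859.result against that frozen type. Keep the theorem IN THIS FILE
-- (a `result` declared elsewhere and merely imported here is not credited); helpers may live anywhere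
-- under Pool/Agent/ except Pool/Agent/Results/<P>/, where every file is a hand-in, and Pool/Agent/OnPar/, which the grade drops.

set_option autoImplicit false
open Matrix
open Pool Pool.MP_024ca5_nt

namespace Pool.Agent.S15859

/-- For every A in SL(3,Z) with irreducible characteristic polynomial having three real roots, and every one of the 8 eigen-cones, the sail has a 2-dimensional face whose plane f=c (f primitive integer form) has integer distance c at least 2. -/
theorem result :
    ∀ A : Matrix (Fin 3) (Fin 3) ℤ, A.det = 1 →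
      Irreducible (A.charpoly.map (Int.castRingHom ℚ)) →
      (A.charpoly.map (Int.castRingHom ℝ)).roots.card = 3 →
      ∀ (μ : Fin 3 → ℝ) (v : Fin 3 → (Fin 3 → ℝ)),
        Function.Injective μ →
        (∀ i, v i ≠ 0) →
        (∀ i, (A.map (Int.cast : ℤ → ℝ)) *ᵥ v i = μ i • v i) →
        ∀ K : Set (Fin 3 → ℤ),
          K = {x : Fin 3 → ℤ | x ≠ 0 ∧
                ∃ t : Fin 3 → ℝ, (∀ i, 0 ≤ t i) ∧
                  (fun j => (x j : ℝ)) = ∑ i, t i • v i} →
          ∃ f : Fin 3 → ℤ, (∀ d : ℤ, (∀ i, d ∣ f i) → IsUnit d) ∧
            ∃ c : ℤ, 2 ≤ c ∧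
              (∀ x ∈ K, c ≤ f ⬝ᵥ x) ∧
              ∃ p ∈ K, ∃ q ∈ K, ∃ r ∈ K,
                f ⬝ᵥ p = c ∧ f ⬝ᵥ q = c ∧ f ⬝ᵥ r = c ∧
                LinearIndependent ℤ ![q - p, r - p] := by
  intro A _ hA _ μ v hμ hv he K hK
  exact Pool.Agent.MP_024ca5_nt.sail_main A hA μ v hμ hv he K hK

end Pool.Agent.S15859
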