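import Pool.Statements.S16625
import Pool.Agent.MP_3b3b41_nt.Mg.Main

-- Template for statement S16625, which your task lets you prove directly.
-- Copy to Pool/Agent/S16625.lean and replace the sorry. The statement below is byte-identical to the frozen
-- statement Pool.MP_3b3b41_nt.PoolFrozen.S16625 (Pool/Statements/S16625.lean; the theorem Pool.MP_3b3b41_nt.main);
-- the grader kernel-checks Pool.Agent.S16625.result against that frozen type. Keep the theorem IN THIS FILE
-- (a `result` declared elsewhere and merely imported here is not credited); helpers may live anywhere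
-- under Pool/Agent/ except Pool/Agent/Results/<P>/, where every file is a hand-in, and Pool/Agent/OnPar/, which the grade drops.

set_option autoImplicit false
open Pool Pool.MP_3b3b41_nt

namespace Pool.Agent.S16625

/-- For integer linear forms and each index i and level s: the i-th function's U^{s+1} norm controls the Φ-average uniformly over large primes p exactly when the (s+1)-th tensor power of φ_i lies outside the rational span of the others' powers. -/
theorem result :
    ∀ (k d : ℕ) (Φ : Fin k → Fin d → ℤ) (i : Fin k) (s : ℕ),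
      ((∀ ε : ℝ, 0 < ε → ∃ δ : ℝ, 0 < δ ∧ ∃ P : ℕ,
          ∀ (p : ℕ) [NeZero p], p.Prime → P ≤ p →
            ∀ f : Fin k → ZMod p → ℂ, (∀ j x, ‖f j x‖ ≤ 1) →
              ‖((p : ℂ) ^ (s + 2))⁻¹ *
                  ∑ x : ZMod p, ∑ h : Fin (s + 1) → ZMod p,
                    ∏ ω : Fin (s + 1) → Bool,
                      (if Even (Finset.univ.filter (fun r => ω r = true)).card
                        then f i (x + ∑ r, (if ω r = true then h r else 0))
                        else starRingEnd ℂ (f i (x + ∑ r, (if ω r = true then h r else 0))))‖ ≤ δ →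
              ‖((p : ℂ) ^ d)⁻¹ *
                  ∑ x : Fin d → ZMod p, ∏ j, f j (∑ l, ((Φ j l : ℤ) : ZMod p) * x l)‖ ≤ ε)
        ↔
        (fun ω : Fin (s + 1) → Fin d => ∏ m, ((Φ i (ω m) : ℤ) : ℚ)) ∉
          Submodule.span ℚ (Set.range (fun j : {j : Fin k // j ≠ i} =>
            fun ω : Fin (s + 1) → Fin d => ∏ m, ((Φ j.1 (ω m) : ℤ) : ℚ)))) := by
  intro k d Φ i s
  have e1 : ∀ (p : ℕ) [NeZero p] (f : ZMod p → ℂ), ((p : ℂ) ^ (s + 2))⁻¹ *
      ∑ x : ZMod p, ∑ h : Fin (s + 1) → ZMod p, ∏ ω : Fin (s + 1) → Bool,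
        (if Even (Finset.univ.filter (fun r => ω r = true)).card
          then f (x + ∑ r, (if ω r = true then h r else 0))
          else starRingEnd ℂ (f (x + ∑ r, (if ω r = true then h r else 0)))) =
      Pool.Agent.MP_3b3b41_nt.Nf (s + 1) f := fun p _ f => by
    rw [Pool.Agent.MP_3b3b41_nt.Nf, Fintype.expect_eq_sum_div_card, Fintype.sum_prod_type,
      div_eq_inv_mul, Fintype.card_prod, Fintype.card_fun, ZMod.card, Fintype.card_fin,
      ← pow_succ', Nat.cast_pow]
    rfl
  have e2 : ∀ (p : ℕ) [NeZero p] (f : Fin k → ZMod p → ℂ), ((p : ℂ) ^ d)⁻¹ *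
      ∑ x : Fin d → ZMod p, ∏ j, f j (∑ l, ((Φ j l : ℤ) : ZMod p) * x l) =
      Finset.univ.expect fun x : Fin d → ZMod p => ∏ j, f j (∑ l, Φ j l • x l) := fun p _ f => by
    rw [Fintype.expect_eq_sum_div_card, div_eq_inv_mul, Fintype.card_fun, ZMod.card,
      Fintype.card_fin, Nat.cast_pow]
    simp only [zsmul_eq_mul]
  constructor
  · intro h hs
    obtain ⟨δ, hδ, P, hP⟩ := h (1 / 2) (by norm_num)
    obtain ⟨p, hp, h1, f, h2, h3, h4⟩ := Pool.Agent.MP_3b3b41_nt.converse hs hδ P
    have := hP p hp.out h1 f h2 (by rwa [e1])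
    rw [e2, h4] at this
    norm_num at this
  · intro h ε hε
    obtain ⟨δ, hδ, P, hP⟩ := Pool.Agent.MP_3b3b41_nt.control h hε
    refine ⟨δ, hδ, P, fun p _ hp h1 f h2 h3 => ?_⟩
    rw [e2]
    refine hP (ZMod p) (fun q hq h4 => ?_) f h2 (by rwa [e1] at h3)
    rw [ZMod.card, Nat.prime_dvd_prime_iff_eq hq hp] at h4
    exact h4 ▸ h1

end Pool.Agent.S16625
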