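import Pool.Statements.S17099
import Pool.Agent.MP_5d10af_nt.Mg.Expl
import Pool.Agent.MP_5d10af_nt.Mg.Final
import Pool.Agent.MP_5d10af_nt.Mg.Decomp
import Pool.Agent.MP_5d10af_nt.Mg.QualA
import Pool.Agent.MP_5d10af_nt.Genus

set_option autoImplicit false
open Pool Pool.MP_5d10af_nt

namespace Pool.Agent.S17099

/-- Let S(X) be the sum, over imaginary quadratic fields K with ∣disc K∣ < X, of the size of 2Cl(K)[4]. Then for every c, every δ>0 and every C there is X ≥ 2 with ∣S(X) − cX∣ > C·X^(1−δ), i.e. no power-saving error term. -/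
theorem result :
    ∀ F : ℤ → ℕ,
      (∀ d : ℤ,
        (∀ (K : Type) [Field K] [NumberField K],
            Module.finrank ℚ K = 2 → NumberField.discr K = d →
              F d = Nat.card {y : ClassGroup (NumberField.RingOfIntegers K) //
                ∃ x : ClassGroup (NumberField.RingOfIntegers K), x ^ 4 = 1 ∧ x ^ 2 = y}) ∧
        ((¬ ∃ (K : Type) (_ : Field K) (_ : NumberField K),
            Module.finrank ℚ K = 2 ∧ NumberField.discr K = d) → F d = 0)) →
      ∀ c δ C : ℝ, 0 < δ →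
        ∃ X : ℝ, 2 ≤ X ∧
          C * X ^ (1 - δ) < |(∑ d ∈ Finset.Ioo (-⌈X⌉) 0, (F d : ℝ)) - c * X| :=
  fun F hF c δ C hδ =>
    MP_5d10af_nt.final F (MP_5d10af_nt.genus_of_isF F hF)
      (MP_5d10af_nt.qualB_of_qualA MP_5d10af_nt.qualA) MP_5d10af_nt.expl c δ C hδ

end Pool.Agent.S17099
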