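import Pool.Statements.S18285
import Pool.Agent.MP_b9de27_nt.Mg.Main

-- Template for statement S18285, which your task lets you prove directly.
-- Copy to Pool/Agent/S18285.lean and replace the sorry. The statement below is byte-identical to the frozen
-- statement Pool.MP_b9de27_nt.PoolFrozen.S18285 (Pool/Statements/S18285.lean; the theorem Pool.MP_b9de27_nt.main);
-- the grader kernel-checks Pool.Agent.S18285.result against that frozen type. Keep the theorem IN THIS FILE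
-- (a `result` declared elsewhere and merely imported here is not credited); helpers may live anywhere
-- under Pool/Agent/ except Pool/Agent/Results/<P>/, where every file is a hand-in, and Pool/Agent/OnPar/, which the grade drops.

set_option autoImplicit false
open Pool Pool.MP_b9de27_nt

namespace Pool.Agent.S18285

/-- For n≥2 and reals w≥n, l≥1/n with w/((n-1)w+n) ≤ l ≤ (w-n+1)/n, some real ξ, not algebraic of degree ≤ n, has polynomial exponent w_n(ξ)=w and simultaneous exponent λ_n(ξ)=l. -/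
theorem result :
    ∀ (n : ℕ) (w l : ℝ), 2 ≤ n → (n : ℝ) ≤ w → 1 / (n : ℝ) ≤ l →
      w / (((n : ℝ) - 1) * w + (n : ℝ)) ≤ l → l ≤ (w - (n : ℝ) + 1) / (n : ℝ) →
      ∃ ξ : ℝ,
        (∀ P : Polynomial ℤ, P ≠ 0 → P.natDegree ≤ n → Polynomial.aeval ξ P ≠ 0) ∧
        (∀ v : ℝ, v < w →
          {P : Polynomial ℤ | P ≠ 0 ∧ P.natDegree ≤ n ∧
            |Polynomial.aeval ξ P| ≤
              (((Finset.range (n + 1)).sup (fun i => (P.coeff i).natAbs) : ℕ) : ℝ) ^ (-v)}.Infinite) ∧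
        (∀ v : ℝ, w < v →
          {P : Polynomial ℤ | P ≠ 0 ∧ P.natDegree ≤ n ∧
            |Polynomial.aeval ξ P| ≤
              (((Finset.range (n + 1)).sup (fun i => (P.coeff i).natAbs) : ℕ) : ℝ) ^ (-v)}.Finite) ∧
        (∀ m : ℝ, m < l →
          {q : ℕ | 0 < q ∧ ∃ p : ℕ → ℤ, ∀ i ∈ Finset.Icc 1 n,
            |(q : ℝ) * ξ ^ i - (p i : ℝ)| ≤ (q : ℝ) ^ (-m)}.Infinite) ∧
        (∀ m : ℝ, l < m →
          {q : ℕ | 0 < q ∧ ∃ p : ℕ → ℤ, ∀ i ∈ Finset.Icc 1 n,
            |(q : ℝ) * ξ ^ i - (p i : ℝ)| ≤ (q : ℝ) ^ (-m)}.Finite) := by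
  intro n w l hn hw hl h1 h2
  have hn' : (2 : ℝ) ≤ n := by exact_mod_cast hn
  have hl' : 1 ≤ n * l := by
    rw [div_le_iff₀ (by linarith)] at hl; linarith
  have h1' : w ≤ l * ((n - 1) * w + n) := by
    rwa [div_le_iff₀ (by nlinarith)] at h1
  have h2' : n * l + n - 1 ≤ w := by
    rw [le_div_iff₀ (by linarith)] at h2; linarith
  have hl0 : 0 ≤ l := le_trans (by positivity) hl
  have hw0 : 0 ≤ w := by linarith
  obtain ⟨ξ, t₀, hb, hab⟩ := Pool.Agent.MP_b9de27_nt.exists_point hn hw hl' h1' h2'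
  refine ⟨ξ, ?_, fun v hv => Pool.Agent.MP_b9de27_nt.inf_W (fun k => (hab k).2) hv,
    fun v hv => Pool.Agent.MP_b9de27_nt.fin_W hw0 hb hv,
    fun m hm => Pool.Agent.MP_b9de27_nt.inf_L (fun k => (hab k).1) hm,
    fun m hm => Pool.Agent.MP_b9de27_nt.fin_L hl0 hb hm⟩
  exact Pool.Agent.MP_b9de27_nt.not_root
    (Pool.Agent.MP_b9de27_nt.fin_W hw0 hb (v := w + 1) (by linarith))

end Pool.Agent.S18285
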