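import Pool.Statements.S19009
import Pool.Agent.MP_f6d20c_nt.Mg.Main

-- Template for statement S19009, which your task lets you prove directly.
-- Copy to Pool/Agent/S19009.lean and replace the sorry. The statement below is byte-identical to the frozen
-- statement Pool.MP_f6d20c_nt.PoolFrozen.S19009 (Pool/Statements/S19009.lean; the theorem Pool.MP_f6d20c_nt.main);
-- the grader kernel-checks Pool.Agent.S19009.result against that frozen type. Keep the theorem IN THIS FILE
-- (a `result` declared elsewhere and merely imported here is not credited); helpers may live anywhere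
-- under Pool/Agent/ except Pool/Agent/Results/<P>/, where every file is a hand-in, and Pool/Agent/OnPar/, which the grade drops.

set_option autoImplicit false
open Pool Pool.MP_f6d20c_nt

namespace Pool.Agent.S19009

/-- For odd n ≥ 3 and 1 ≤ k ≤ n−1: the sum of x⁻¹ (with 0⁻¹=0) over every k-dimensional F_2-affine subspace of F_{2^n} is nonzero exactly when k is 1, 2, n−2 or n−1. -/
theorem result :
    ∀ n : ℕ, 3 ≤ n → Odd n → ∀ k : ℕ, 1 ≤ k → k ≤ n - 1 →
      ((∀ V : Submodule (ZMod 2) (GaloisField 2 n),
          Module.finrank (ZMod 2) V = k →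
            ∀ a : GaloisField 2 n,
              ∑ᶠ x ∈ (V : Set (GaloisField 2 n)), (a + x)⁻¹ ≠ 0) ↔
        (k = 1 ∨ k = 2 ∨ k = n - 2 ∨ k = n - 1)) := by
  intro n h3 hodd k hk hkn
  have hn0 : n ≠ 0 := by omega
  let _ : Fintype (GaloisField 2 n) := Fintype.ofFinite _
  have hcard : Fintype.card (GaloisField 2 n) = 2 ^ n := by
    rw [← Nat.card_eq_fintype_card, GaloisField.card 2 n hn0]
  obtain ⟨χ, hχ⟩ := Pool.Agent.MP_f6d20c_nt.exists_isChi (F := GaloisField 2 n)
    (by rwa [GaloisField.finrank 2 hn0])
  rw [Pool.Agent.MP_f6d20c_nt.sumFree_iff]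
  exact hχ.Z_eq_zero hcard h3 hodd hk hkn

end Pool.Agent.S19009
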