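import Pool.Statements.S19345
import Pool.Agent.MP_5d5bd1_pr.Mg.Final

-- Template for statement S19345, which your task lets you prove directly.
-- Copy to Pool/Agent/S19345.lean and replace the sorry. The statement below is byte-identical to the frozen
-- statement Pool.MP_5d5bd1_pr.PoolFrozen.S19345 (Pool/Statements/S19345.lean; the theorem Pool.MP_5d5bd1_pr.main);
-- the grader kernel-checks Pool.Agent.S19345.result against that frozen type. Keep the theorem IN THIS FILE
-- (a `result` declared elsewhere and merely imported here is not credited); helpers may live anywhere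
-- under Pool/Agent/ except Pool/Agent/Results/<P>/, where every file is a hand-in, and Pool/Agent/OnPar/, which the grade drops.

set_option autoImplicit false
open MeasureTheory Filter
open scoped ENNReal BoundedContinuousFunction
open Pool Pool.MP_5d5bd1_pr

namespace Pool.Agent.S19345

/-- For fixed r≥3, if A_n is uniform over n×n 0-1 matrices with all row and column sums r, then almost surely the eigenvalue distribution of A_n converges weakly to density r²(r−1)/(π(r²−∣z∣²)²) on the disk ∣z∣<√r. -/
theorem result :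
    ∀ r : ℕ, 3 ≤ r →
    ∀ (Ω : Type) [MeasurableSpace Ω] (P : Measure Ω) [IsProbabilityMeasure P]
      (A : (n : ℕ) → Ω → Matrix (Fin n) (Fin n) (Fin 2)),
      (∀ n (M : Matrix (Fin n) (Fin n) (Fin 2)), MeasurableSet {ω | A n ω = M}) →
      (∀ n, r ≤ n → ∀ M : Matrix (Fin n) (Fin n) (Fin 2),
        P {ω | A n ω = M} =
          if M ∈ (Finset.univ.filter (fun M : Matrix (Fin n) (Fin n) (Fin 2) =>
                  (∀ i, ∑ j, (M i j : ℕ) = r) ∧ (∀ j, ∑ i, (M i j : ℕ) = r)))
          then ((Finset.univ.filter (fun M : Matrix (Fin n) (Fin n) (Fin 2) =>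
                  (∀ i, ∑ j, (M i j : ℕ) = r) ∧ (∀ j, ∑ i, (M i j : ℕ) = r))).card
                  : ℝ≥0∞)⁻¹
          else 0) →
      ∀ᵐ ω ∂P, ∀ f : ℂ →ᵇ ℝ,
        Tendsto
          (fun n : ℕ =>
            ∫ z, f z ∂(((n : ℝ≥0∞)⁻¹) •
              (((Matrix.map (A n ω) (fun x : Fin 2 => ((x : ℕ) : ℂ))).charpoly.roots.map
                (fun z : ℂ => Measure.dirac z)).sum)))
          atTop
          (nhds (∫ z in Metric.ball (0 : ℂ) (Real.sqrt r),
            f z * ((r : ℝ) ^ 2 * ((r : ℝ) - 1) /
              (Real.pi * ((r : ℝ) ^ 2 - ‖z‖ ^ 2) ^ 2)))) := by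
  intro r hr Ω _ P _ A _ hA
  exact Pool.Agent.OKM.main r hr Ω P A hA

end Pool.Agent.S19345
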