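import Pool.Statements.S19435
import Pool.Agent.MP_81e6aa_pr.Main

set_option autoImplicit false
open Pool Pool.MP_81e6aa_pr

namespace Pool.Agent.S19435

/-- With n=3m vertices, some t of order n^{4/3}(log n)^{1/3} and b = o(that) admit an online strategy that buys at most b of the first t random-process edges, and the bought graph has a triangle factor with probability tending to 1. -/
theorem result :
    ∃ f : ℕ → ℝ, (∀ m : ℕ, f m =
        (3 * (m : ℝ)) ^ ((4 : ℝ) / 3) * (Real.log (3 * (m : ℝ))) ^ ((1 : ℝ) / 3)) ∧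
    ∃ c C : ℝ, 0 < c ∧ 0 < C ∧ ∃ t b : ℕ → ℕ,
      (∀ᶠ m in Filter.atTop, c * f m ≤ (t m : ℝ) ∧ (t m : ℝ) ≤ C * f m) ∧
      Filter.Tendsto (fun m : ℕ => (b m : ℝ) / f m) Filter.atTop (nhds (0 : ℝ)) ∧
      ∃ S : ∀ m : ℕ, (Fin (t m) ↪ {e : Sym2 (Fin (3 * m)) // ¬ e.IsDiag}) → Finset (Fin (t m)),
        (∀ (m : ℕ) (σ σ' : Fin (t m) ↪ {e : Sym2 (Fin (3 * m)) // ¬ e.IsDiag}) (i : Fin (t m)),
          (∀ j : Fin (t m), j ≤ i → σ j = σ' j) → (i ∈ S m σ ↔ i ∈ S m σ')) ∧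
        (∀ (m : ℕ) (σ : Fin (t m) ↪ {e : Sym2 (Fin (3 * m)) // ¬ e.IsDiag}),
          (S m σ).card ≤ b m) ∧
        Filter.Tendsto (fun m : ℕ =>
          (Nat.card {σ : Fin (t m) ↪ {e : Sym2 (Fin (3 * m)) // ¬ e.IsDiag} //
              ∃ P : Finset (Finset (Fin (3 * m))),
                (∀ s : Finset (Fin (3 * m)), s ∈ P →
                  (SimpleGraph.fromEdgeSet
                    (((S m σ).image
                      (fun i : Fin (t m) => (σ i).1) : Finset (Sym2 (Fin (3 * m)))) :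
                        Set (Sym2 (Fin (3 * m))))).IsNClique 3 s) ∧
                ∀ v : Fin (3 * m), ∃! s : Finset (Fin (3 * m)), s ∈ P ∧ v ∈ s} : ℝ) /
          (Nat.card (Fin (t m) ↪ {e : Sym2 (Fin (3 * m)) // ¬ e.IsDiag}) : ℝ))
          Filter.atTop (nhds (1 : ℝ)) := by
  obtain ⟨b, h1, S, h2, h3, h4⟩ := Pool.Agent.MP_81e6aa_pr.main
  exact ⟨Pool.Agent.MP_81e6aa_pr.ff, Pool.Agent.MP_81e6aa_pr.ff_eq, 150000, 150001, by norm_num,
    by norm_num, Pool.Agent.MP_81e6aa_pr.tt, b, Pool.Agent.MP_81e6aa_pr.tt_bounds, h1, S, h2, h3,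
    h4⟩

end Pool.Agent.S19435
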